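import Pool.Agent.NPC.Sat
import Pool.Agent.NPC.Dec

/-!
# There is an NP-complete language
-/

namespace Pool.Agent.Z45.OG

open Pool.Agent.NPC

/-- the literals of the formula that the list of true variables makes true -/
def checkSat (p : List (List (Bool × ℕ)) × List ℕ) : Bool :=
  p.1.all (fun c => c.any (fun l => decide (decide (l.2 ∈ p.2) = l.1)))

theorem poly_checkSat : Poly checkSat := by
  refine Poly.all (p := fun (p : List (List (Bool × ℕ)) × List ℕ) c =>
    c.any (fun l => decide (decide (l.2 ∈ p.2) = l.1))) (Poly.fst Poly.id) ?_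
  refine Poly.any (p := fun (q : (List (List (Bool × ℕ)) × List ℕ) × List (Bool × ℕ)) l =>
    decide (decide (l.2 ∈ q.1.2) = l.1)) (Poly.snd Poly.id) ?_
  refine Poly.decide_eq (Poly.decide_mem (Poly.snd (Poly.snd Poly.id))
    (Poly.snd (Poly.fst (Poly.fst Poly.id)))) (Poly.fst (Poly.snd Poly.id))

theorem sz_le_of_sublist {β : Type} [TEnc β] {l l' : List β} (h : l.Sublist l') :
    sz l ≤ sz l' := by
  induction h with
  | slnil => exact le_rfl
  | cons a _ ih => rw [sz_list_cons]; omega
  | cons_cons a _ ih => rw [sz_list_cons, sz_list_cons]; omega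

theorem inNPP_SAT : InNPP SAT := by
  have h1 : Poly (fun φ : List (List (Bool × ℕ)) => φ.flatten.map Prod.snd) :=
    (NPC.Poly.map (F := fun (_ : List (List (Bool × ℕ))) (l : Bool × ℕ) => l.2)
      (Poly.flatten Poly.id) (Poly.snd (Poly.snd Poly.id)))
  obtain ⟨q, hq⟩ := h1.sz_le
  refine inNPP_of poly_checkSat q fun φ => ?_
  constructor
  · rintro ⟨τ, hτ⟩
    refine ⟨(φ.flatten.map Prod.snd).filter (fun v => τ v), ?_, ?_⟩
    · exact (sz_le_of_sublist List.filter_sublist).trans (hq φ)
    · rw [checkSat, List.all_eq_true]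
      intro c hc
      rw [List.any_eq_true]
      obtain ⟨l, hl, hl'⟩ := hτ c hc
      refine ⟨l, hl, ?_⟩
      rw [decide_eq_true_iff, ← hl']
      have h3 : l.2 ∈ φ.flatten.map Prod.snd :=
        List.mem_map.2 ⟨l, List.mem_flatten.2 ⟨c, hc, hl⟩, rfl⟩
      cases hb : τ l.2 with
      | false => simp [List.mem_filter, hb]
      | true =>
        rw [decide_eq_true_iff, List.mem_filter]
        exact ⟨h3, by simpa using hb⟩
  · rintro ⟨w, _, hw⟩
    rw [checkSat, List.all_eq_true] at hw
    refine ⟨fun v => decide (v ∈ w), fun c hc => ?_⟩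
    have h2 := hw c hc
    rw [List.any_eq_true] at h2
    obtain ⟨l, hl, hl'⟩ := h2
    exact ⟨l, hl, of_decide_eq_true hl'⟩

theorem exists_complete : ∃ K : Set (List Bool), InNP K ∧ NPHard K :=
  ⟨lang SAT, inNPP_SAT, npHard_SAT⟩

end Pool.Agent.Z45.OG
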