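import Mathlib

/-!
# Majority votes: a counting bound
-/

namespace Pool.Agent.Z45.OG

open Finset

theorem prod_two_ite {ι : Type} [Fintype ι] (P : ι → Prop) [DecidablePred P] :
    ∏ i, (if P i then (2 : ℝ) else 1) = 2 ^ (univ.filter P).card := by
  rw [Finset.prod_ite, Finset.prod_const, Finset.prod_const_one, mul_one]

theorem sum_two_ite {W : Type} [Fintype W] (bad : W → Prop) [DecidablePred bad] :
    ∑ v : W, (if bad v then (2 : ℝ) else 1) = Fintype.card W + (univ.filter bad).card := by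
  have h : ∀ v : W, (if bad v then (2 : ℝ) else 1) = 1 + if bad v then 1 else 0 := by
    intro v
    split_ifs <;> norm_num
  simp only [h, Finset.sum_add_distrib, Finset.sum_const, Finset.card_univ, nsmul_eq_mul, mul_one,
    Finset.sum_boole]

/-- If at most a third of the elements is bad, then among the sequences of length `12 k` at most
the part `2 ^ (-k)` has at least `6 k` bad members. -/
theorem amp {W : Type} [Fintype W] (bad : W → Prop) [DecidablePred bad]
    (h : 3 * (univ.filter bad).card ≤ Fintype.card W) (k : ℕ) :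
    2 ^ k * (univ.filter (fun w : Fin (12 * k) → W =>
      6 * k ≤ (univ.filter (fun i => bad (w i))).card)).card ≤ Fintype.card W ^ (12 * k) := by
  have h1 : ∑ v : W, (if bad v then (2 : ℝ) else 1) ≤ 4 / 3 * Fintype.card W := by
    rw [sum_two_ite]
    have h' : (3 : ℝ) * (univ.filter bad).card ≤ Fintype.card W := by exact_mod_cast h
    linarith
  have h2 : (∑ v : W, (if bad v then (2 : ℝ) else 1)) ^ (12 * k) =
      ∑ w : Fin (12 * k) → W, ∏ i, (if bad (w i) then (2 : ℝ) else 1) := Fintype.sum_pow _ _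
  set S := univ.filter (fun w : Fin (12 * k) → W =>
      6 * k ≤ (univ.filter (fun i => bad (w i))).card) with hS
  have h3 : (S.card : ℝ) * 2 ^ (6 * k) ≤
      ∑ w : Fin (12 * k) → W, ∏ i, (if bad (w i) then (2 : ℝ) else 1) := by
    calc (S.card : ℝ) * 2 ^ (6 * k) = ∑ w ∈ S, (2 : ℝ) ^ (6 * k) := by
          rw [Finset.sum_const, nsmul_eq_mul]
      _ ≤ ∑ w ∈ S, ∏ i, (if bad (w i) then (2 : ℝ) else 1) := by
          refine Finset.sum_le_sum fun w hw => ?_
          rw [prod_two_ite (fun i => bad (w i))]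
          rw [hS, Finset.mem_filter] at hw
          exact pow_le_pow_right₀ (by norm_num) hw.2
      _ ≤ _ := Finset.sum_le_sum_of_subset_of_nonneg (Finset.subset_univ _) fun w _ _ =>
          Finset.prod_nonneg fun i _ => by split_ifs <;> norm_num
  have h4 : (∑ v : W, (if bad v then (2 : ℝ) else 1)) ^ (12 * k) ≤
      (4 / 3 * Fintype.card W) ^ (12 * k) := by
    refine pow_le_pow_left₀ (Finset.sum_nonneg fun i _ => ?_) h1 _
    split_ifs <;> norm_num
  have h5 : (S.card : ℝ) * 2 ^ (6 * k) ≤ (4 / 3 * Fintype.card W) ^ (12 * k) :=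
    h3.trans (h2 ▸ h4)
  have h6 : (4 / 3 * (Fintype.card W : ℝ)) ^ (12 * k) =
      (4 / 3) ^ (12 * k) * (Fintype.card W : ℝ) ^ (12 * k) := mul_pow _ _ _
  have h7 : (2 : ℝ) ^ k * (4 / 3) ^ (12 * k) ≤ 2 ^ (6 * k) := by
    have e1 : (2 : ℝ) ^ k * (4 / 3) ^ (12 * k) = (2 * (4 / 3) ^ 12) ^ k := by
      rw [mul_pow, pow_mul]
    have e2 : (2 : ℝ) ^ (6 * k) = (2 ^ 6) ^ k := by rw [pow_mul]
    rw [e1, e2]
    exact pow_le_pow_left₀ (by positivity) (by norm_num) _
  have h8 : (2 : ℝ) ^ k * (S.card : ℝ) * 2 ^ (6 * k) ≤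
      (Fintype.card W : ℝ) ^ (12 * k) * 2 ^ (6 * k) := by
    calc (2 : ℝ) ^ k * (S.card : ℝ) * 2 ^ (6 * k) = 2 ^ k * ((S.card : ℝ) * 2 ^ (6 * k)) := by ring
      _ ≤ 2 ^ k * ((4 / 3) ^ (12 * k) * (Fintype.card W : ℝ) ^ (12 * k)) := by
          rw [← h6]; exact mul_le_mul_of_nonneg_left h5 (by positivity)
      _ = (2 ^ k * (4 / 3) ^ (12 * k)) * (Fintype.card W : ℝ) ^ (12 * k) := by ring
      _ ≤ 2 ^ (6 * k) * (Fintype.card W : ℝ) ^ (12 * k) :=
          mul_le_mul_of_nonneg_right h7 (by positivity)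
      _ = _ := by ring
  have h9 : (2 : ℝ) ^ k * (S.card : ℝ) ≤ (Fintype.card W : ℝ) ^ (12 * k) :=
    le_of_mul_le_mul_right h8 (by positivity)
  exact_mod_cast h9

end Pool.Agent.Z45.OG
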