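import Pool.Agent.Z45.OG.Defs
import Pool.Agent.H622R2.CoNP

/-!
# Blocks of bit strings
-/

namespace Pool.Agent.Z45.OG

open Pool.Agent.NPC Pool.Agent.H620R2.Gauge

/-- the block number `i` of length `t` -/
def blk (t : ℕ) (w : List Bool) (i : ℕ) : List Bool :=
  (List.range t).map (fun j => w.getD (j + t * i) false)

theorem blk_ofFn {T t : ℕ} (f : Fin (T * t) → Bool) (i : Fin T) :
    blk t (List.ofFn f) i = List.ofFn (fun j : Fin t => f (finProdFinEquiv (i, j))) := by
  apply List.ext_getElem
  · simp [blk]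
  · intro j h1 h2
    have hj : j < t := by simpa [blk] using h1
    have hlt : j + t * (i : ℕ) < T * t := by
      have := (finProdFinEquiv (i, (⟨j, hj⟩ : Fin t))).isLt
      simpa [finProdFinEquiv] using this
    simp only [blk, List.getElem_map, List.getElem_range, List.getElem_ofFn]
    rw [List.getD_eq_getElem _ _ (by simpa using hlt), List.getElem_ofFn]
    rfl

theorem card_blocks {T t : ℕ} (P : (Fin T → Fin t → Bool) → Prop) :
    Nat.card {f : Fin (T * t) → Bool // P (fun i j => f (finProdFinEquiv (i, j)))} =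
      Nat.card {v : Fin T → Fin t → Bool // P v} := by
  refine Nat.card_congr (Equiv.subtypeEquiv
    ((Equiv.arrowCongr finProdFinEquiv.symm (Equiv.refl Bool)).trans (Equiv.curry _ _ _)) ?_)
  intro f
  exact Iff.rfl

theorem card_pi_bad {W : Type} (T : ℕ) (bad : W → Prop) :
    Nat.card {v : Fin T → W // ∀ i, bad (v i)} = (Nat.card {w : W // bad w}) ^ T := by
  rw [Nat.card_congr (Equiv.subtypePiEquivPi (p := fun _ => bad)), Nat.card_pi]
  simp

theorem poly_blk {α : Type} [TEnc α] {t : α → ℕ} {w : α → List Bool} {i : α → ℕ} (ht : UPoly t)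
    (hw : Poly w) (hi : Poly i) : Poly (fun a => blk (t a) (w a) (i a)) := by
  have h0 : Poly (fun p : α × ℕ => p.1) := Poly.fst Poly.id
  exact NPC.Poly.map (F := fun a j => (w a).getD (j + t a * i a) false) ht.range
    (Poly.getD (hw.comp h0) (Poly.add (Poly.snd Poly.id)
      (Poly.mul (ht.toPoly.comp h0) (hi.comp h0))) (NPC.Poly.const false))

end Pool.Agent.Z45.OG
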