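import Pool.Agent.Z45.OG.Defs
import Pool.Agent.H620R2.GaugeR.R2
import Pool.Agent.H620R2.Gauge.A1

/-!
# Search reduces to decision, relative to a helpful oracle
-/

namespace Pool.Agent.Z45.OG

open Pool.Agent.NPC Pool.Agent.H620R2.Gauge

/-- the verifier for extensions -/
def prefV (V : List Bool → List Bool) (p : Polynomial ℕ) (y : List Bool) : List Bool :=
  if (unpair (unpair y).1).2.length + (unpair y).2.length ≤
      p.eval (unpair (unpair y).1).1.length then
    V (pairBits (unpair (unpair y).1).1 ((unpair (unpair y).1).2 ++ (unpair y).2)) else [false]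

/-- `u` is the beginning of a certificate for `x` -/
def Ext (V : List Bool → List Bool) (p : Polynomial ℕ) (x u : List Bool) : Prop :=
  ∃ w : List Bool, u.length + w.length ≤ p.eval x.length ∧ V (pairBits x (u ++ w)) = [true]

/-- the extension language -/
def prefL (V : List Bool → List Bool) (p : Polynomial ℕ) : Set (List Bool) :=
  {y | ∃ w : List Bool, w.length ≤ p.eval y.length ∧ prefV V p (pairBits y w) = [true]}

theorem inNP_prefL {V : List Bool → List Bool} (hV : PolyTime V) (p : Polynomial ℕ) :
    InNP (prefL V p) := by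
  refine ⟨prefV V p, p, H622R2.polyTime_of_poly_list ?_, fun x => Iff.rfl⟩
  have h1 : Poly (fun y => (unpair (unpair y).1).1) :=
    Poly.fst (poly_unpair.comp (Poly.fst poly_unpair))
  have h2 : Poly (fun y => (unpair (unpair y).1).2) :=
    Poly.snd (poly_unpair.comp (Poly.fst poly_unpair))
  have h3 : Poly (fun y => (unpair y).2) := Poly.snd poly_unpair
  exact Poly.ite (Poly.decide_le (Poly.add (Poly.length h2) (Poly.length h3))
    ((UPoly.length h1).eval p).toPoly)
    ((H622R2.poly_of_polyTime hV).comp (H622R2.poly_pairBits h1 (Poly.append h2 h3)))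
    (NPC.Poly.const _)

theorem mem_prefL (V : List Bool → List Bool) (p : Polynomial ℕ) (x u : List Bool) :
    pairBits x u ∈ prefL V p ↔ Ext V p x u := by
  constructor
  · rintro ⟨w, _, h⟩
    unfold prefV at h
    simp only [unpair_pairBits] at h
    split_ifs at h with h1
    · exact ⟨w, h1, h⟩
    · simp at h
  · rintro ⟨w, h1, h2⟩
    refine ⟨w, ?_, ?_⟩
    · have h3 : p.eval x.length ≤ p.eval (pairBits x u).length :=
        eval_mono p (by rw [length_pairBits]; omega)
      omega
    · unfold prefV
      simp only [unpair_pairBits]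
      rw [if_pos h1, h2]

/-- the result is a certificate if there is one -/
def Found (L : Set (List Bool)) (V : List Bool → List Bool) (p : Polynomial ℕ) (x : List Bool)
    (o : Option (List Bool)) : Prop :=
  x ∈ L → ∃ z, o = some z ∧ V (pairBits x z) = [true] ∧ z.length ≤ p.eval x.length

theorem search {A : Oracle} {L : Set (List Bool)} {V : List Bool → List Bool}
    {p : Polynomial ℕ} (hV : PolyTime V)
    (hL : ∀ x, x ∈ L ↔ ∃ w : List Bool, w.length ≤ p.eval x.length ∧ V (pairBits x w) = [true])
    (hA : A ∈ helpersNP) : ∃ M : Alg, ∀ x, Found L V p x (M.out A x) := by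
  obtain ⟨D, hD, hDL⟩ := hA _ (inNP_prefL hV p)
  have hext : ∀ x u, D (pairBits x u) = [true] ↔ Ext V p x u := fun x u => by
    rw [← hDL, mem_prefL]
  -- one step
  set fb : Bool → List Bool → List Bool := fun b s =>
    pairBits (unpair s).1 ((unpair s).2 ++ [b]) with hfb
  have pfb : ∀ b, Poly (fb b) := fun b =>
    H622R2.poly_pairBits (Poly.fst poly_unpair) (Poly.append (Poly.snd poly_unpair)
      (NPC.Poly.const _))
  have hS := IsFP.seq (A := A) (F := fun s => D (fb true s)) (G := D)
    (φ := fun q => fb false q.1)
    (ψ := fun q => if q.2.1 = [true] then fb true q.1 else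
      if q.2.2 = [true] then fb false q.1 else q.1)
    (IsFP.comp hD (IsFP.of_poly (pfb true))) hD ((pfb false).comp (Poly.fst Poly.id))
    (Poly.ite (Poly.decide_eq (Poly.fst (Poly.snd Poly.id)) (NPC.Poly.const _))
      ((pfb true).comp (Poly.fst Poly.id))
      (Poly.ite (Poly.decide_eq (Poly.snd (Poly.snd Poly.id)) (NPC.Poly.const _))
        ((pfb false).comp (Poly.fst Poly.id)) (Poly.fst Poly.id)))
  set S : List Bool → List Bool := fun s => if D (fb true s) = [true] then fb true s else
      if D (fb false s) = [true] then fb false s else s with hSd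
  have hS' : IsFP A S := hS
  have hstep : ∀ x u, S (pairBits x u) = if D (pairBits x (u ++ [true])) = [true] then
      pairBits x (u ++ [true]) else if D (pairBits x (u ++ [false])) = [true] then
      pairBits x (u ++ [false]) else pairBits x u := by
    intro x u
    simp only [hSd, hfb, unpair_pairBits]
  have hinv : ∀ x i, ∃ u : List Bool, S^[i] (pairBits x []) = pairBits x u ∧ u.length ≤ i ∧
      (x ∈ L → Ext V p x u ∧ (u.length = i ∨ ∀ b, ¬ Ext V p x (u ++ [b]))) := by
    intro x i
    induction i with
    | zero =>
      refine ⟨[], rfl, le_rfl, fun hx => ⟨?_, Or.inl rfl⟩⟩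
      obtain ⟨w, h1, h2⟩ := (hL x).1 hx
      exact ⟨w, by simpa using h1, by simpa using h2⟩
    | succ i ih =>
      obtain ⟨u, h1, h2, h3⟩ := ih
      rw [Function.iterate_succ_apply', h1, hstep]
      by_cases ht : D (pairBits x (u ++ [true])) = [true]
      · rw [if_pos ht]
        refine ⟨_, rfl, by simpa using h2, fun hx => ?_⟩
        rw [hext] at ht
        obtain ⟨h4, h5⟩ := h3 hx
        refine ⟨ht, Or.inl ?_⟩
        rcases h5 with h5 | h5
        · rw [List.length_append, h5, List.length_singleton]
        · exact absurd ht (h5 true)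
      · rw [if_neg ht]
        by_cases hf : D (pairBits x (u ++ [false])) = [true]
        · rw [if_pos hf]
          refine ⟨_, rfl, by simpa using h2, fun hx => ?_⟩
          rw [hext] at hf
          obtain ⟨h4, h5⟩ := h3 hx
          refine ⟨hf, Or.inl ?_⟩
          rcases h5 with h5 | h5
          · rw [List.length_append, h5, List.length_singleton]
          · exact absurd hf (h5 false)
        · rw [if_neg hf]
          refine ⟨u, rfl, by omega, fun hx => ⟨(h3 hx).1, Or.inr fun b => ?_⟩⟩
          rw [← hext]
          cases b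
          · exact hf
          · exact ht
  have hloop := IsFP.loop hS' (g := fun x => pairBits x []) (H622R2.poly_pairBits Poly.id
    (NPC.Poly.const [])) (p + 1) (Polynomial.C 2 * Polynomial.X + Polynomial.C 1 + p + 1)
    (by
      intro x i hi
      obtain ⟨u, h1, h2, _⟩ := hinv x i
      rw [h1, length_pairBits]
      simp only [Polynomial.eval_add, Polynomial.eval_mul, Polynomial.eval_C, Polynomial.eval_X,
        Polynomial.eval_one] at hi ⊢
      omega)
  obtain ⟨M, hM⟩ := IsFP.comp (IsFP.of_poly (F := fun s => (unpair s).2)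
    (Poly.snd poly_unpair)) hloop
  refine ⟨M, fun x hx => ⟨_, hM x, ?_⟩⟩
  obtain ⟨u, h1, h2, h3⟩ := hinv x ((p + 1).eval x.length)
  simp only [h1, unpair_pairBits]
  obtain ⟨⟨w, h4, h5⟩, h6⟩ := h3 hx
  rw [Polynomial.eval_add, Polynomial.eval_one] at h6
  rcases h6 with h6 | h6
  · omega
  · cases w with
    | nil =>
      rw [List.append_nil] at h5
      exact ⟨h5, by simpa using h4⟩
    | cons b w =>
      exfalso
      refine h6 b ⟨w, ?_, ?_⟩
      · rw [List.length_append, List.length_singleton]
        rw [List.length_cons] at h4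
        omega
      · rw [List.append_assoc]
        exact h5

end Pool.Agent.Z45.OG
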