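import Pool.Agent.Z45.OG.Ppoly
import Pool.Agent.Z45.OG.Search
import Pool.Agent.Z45.OG.Blocks

/-!
# Many helpful oracles give a randomised algorithm
-/

namespace Pool.Agent.Z45.OG

open Pool.Agent.NPC Pool.Agent.H620R2.Gauge MeasureTheory

theorem pow_one_sub_le {ε : ℝ} (h0 : 0 ≤ ε) (h1 : ε ≤ 1) (T : ℕ) (hT : 2 ≤ T * ε) :
    (1 - ε) ^ T ≤ 1 / 3 := by
  have h2 : 1 + (T : ℝ) * ε ≤ (1 + ε) ^ T := one_add_mul_le_pow (by linarith) T
  have h3 : (1 - ε) ^ T * (1 + ε) ^ T ≤ 1 := by
    rw [← mul_pow]
    exact pow_le_one₀ (mul_nonneg (by linarith) (by linarith)) (by nlinarith)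
  have h4 : 0 ≤ (1 - ε) ^ T := pow_nonneg (by linarith) T
  have h5 : (1 - ε) ^ T * 3 ≤ 1 :=
    (mul_le_mul_of_nonneg_left (by linarith) h4).trans h3
  linarith

/-- the simulation with the answers `r` finds a certificate -/
def hit (M : Alg) (V : List Bool → List Bool) (p : Polynomial ℕ) (x r : List Bool) : Bool :=
  match lz M x (M.p.eval x.length) [] [] r with
  | none => false
  | some z => decide (V (pairBits x z) = [true] ∧ z.length ≤ p.eval x.length)

theorem hit_iff (M : Alg) (V : List Bool → List Bool) (p : Polynomial ℕ) (x r : List Bool) :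
    hit M V p x r = true ↔ ∃ z, lz M x (M.p.eval x.length) [] [] r = some z ∧
      V (pairBits x z) = [true] ∧ z.length ≤ p.eval x.length := by
  unfold hit
  cases lz M x (M.p.eval x.length) [] [] r with
  | none => simp
  | some z => simp

theorem poly_hit (M : Alg) {V : List Bool → List Bool} (hV : PolyTime V) (p : Polynomial ℕ)
    {α : Type} [TEnc α] {x r : α → List Bool} (hx : Poly x) (hr : Poly r) :
    Poly (fun a => hit M V p (x a) (r a)) := by
  have h1 : Poly (fun a => lz M (x a) (M.p.eval (x a).length) [] [] (r a)) :=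
    poly_lz M hx (NPC.Poly.const []) hr
  have g1 : Poly (fun q : α × List Bool => x q.1) := hx.comp (Poly.fst Poly.id)
  have g2 : Poly (fun q : α × List Bool => q.2) := Poly.snd Poly.id
  refine (Poly.optCases (g := fun _ => false) (h := fun a z =>
      decide (V (pairBits (x a) z) = [true] ∧ z.length ≤ p.eval (x a).length)) h1
      (NPC.Poly.const _) ?_).congr fun a => ?_
  · exact Poly.decide_and (Poly.decide_eq ((H622R2.poly_of_polyTime hV).comp
      (H622R2.poly_pairBits g1 g2)) (NPC.Poly.const _))
      (Poly.decide_le (Poly.length g2) ((UPoly.length g1).eval p).toPoly)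
  · unfold hit
    cases lz M (x a) (M.p.eval (x a).length) [] [] (r a) <;> rfl

/-- the randomised algorithm -/
def rpV (M : Alg) (V : List Bool → List Bool) (p T : Polynomial ℕ) (y : List Bool) : List Bool :=
  [(List.range (T.eval (unpair y).2.length)).any (fun i =>
    hit M V p (unpair y).2 (blk (M.p.eval (unpair y).2.length) (unpair y).1 i))]

theorem polyTime_rpV (M : Alg) {V : List Bool → List Bool} (hV : PolyTime V)
    (p T : Polynomial ℕ) : PolyTime (rpV M V p T) := by
  have h1 : Poly (fun y => (unpair y).1) := Poly.fst poly_unpair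
  have h2 : Poly (fun y => (unpair y).2) := Poly.snd poly_unpair
  refine polyTime_of_poly (Poly.any (p := fun y i =>
    hit M V p (unpair y).2 (blk (M.p.eval (unpair y).2.length) (unpair y).1 i))
    ((UPoly.length h2).eval T).range ?_)
  exact poly_hit M hV p (h2.comp (Poly.fst Poly.id))
    (poly_blk (((UPoly.length h2).eval M.p).comp (Poly.fst Poly.id))
      (h1.comp (Poly.fst Poly.id)) (Poly.snd Poly.id))

theorem inBPP_of_nonnull {L : Set (List Bool)} (hL : InNP L) {c : ℝ}
    (h : ¬ Null (fun N => c * Real.logb 2 (Real.logb 2 N)) helpersNP) : InBPP L := by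
  classical
  obtain ⟨V, p, hV, hLV⟩ := hL
  obtain ⟨M, hM⟩ : ∃ M : Alg, ¬ Null (fun N => c * Real.logb 2 (Real.logb 2 N))
      {A | ∀ x, Found L V p x (M.out A x)} := by
    by_contra hcon
    push Not at hcon
    refine h ((null_iUnion _ hcon).mono fun A hA => ?_)
    obtain ⟨M, hM⟩ := search hV hLV hA
    exact Set.mem_iUnion.2 ⟨M, hM⟩
  obtain ⟨δ, s, hδ, hlow⟩ := prob_lower M (Found L V p) hM
  obtain ⟨C, hC⟩ := exists_nat_ge c
  obtain ⟨D, hD⟩ := exists_nat_ge (2 / δ)
  set T : Polynomial ℕ := Polynomial.C D * (s + 1) ^ C with hT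
  have hTe : ∀ n, T.eval n = D * (s.eval n + 1) ^ C := by
    intro n; simp [hT]
  -- the probability of success
  have hacc : ∀ x : List Bool, 2 ≤ ((T.eval x.length : ℕ) : ℝ) *
      acc M (Found L V p x) x (M.p.eval x.length) [] [] := by
    intro x
    have h1 := hlow x.length
    set m := s.eval x.length + 1 with hm
    have hm1 : (1 : ℝ) ≤ (m : ℝ) := by
      have : 1 ≤ m := by omega
      exact_mod_cast this
    have h2 : (2 : ℝ) ^ (c * Real.logb 2 (Real.logb 2 ((2 ^ m : ℕ) : ℝ))) ≤ ((m ^ C : ℕ) : ℝ) := by
      have e1 : Real.logb 2 ((2 ^ m : ℕ) : ℝ) = (m : ℝ) := by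
        rw [Nat.cast_pow, Nat.cast_ofNat, Real.logb_pow, Real.logb_self_eq_one (by norm_num),
          mul_one]
      rw [e1, mul_comm, Real.rpow_mul (by norm_num), Real.rpow_logb (by norm_num) (by norm_num)
        (by linarith)]
      calc (m : ℝ) ^ c ≤ (m : ℝ) ^ (C : ℝ) := Real.rpow_le_rpow_of_exponent_le hm1 hC
        _ = ((m ^ C : ℕ) : ℝ) := by rw [Real.rpow_natCast]; push_cast; ring
    have h3 : δ ≤ ranO.real {A | ∀ y : List Bool, y.length ≤ x.length →
        Found L V p y (M.out A y)} * ((m ^ C : ℕ) : ℝ) :=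
      h1.trans (mul_le_mul_of_nonneg_left h2 measureReal_nonneg)
    have h4 : ranO.real {A | ∀ y : List Bool, y.length ≤ x.length →
        Found L V p y (M.out A y)} ≤ acc M (Found L V p x) x (M.p.eval x.length) [] [] := by
      have h5 := real_run M (Found L V p x) x (M.p.eval x.length) [] [] good_nil
      rw [List.length_nil, pow_zero, mul_one] at h5
      rw [← h5]
      refine measureReal_mono fun A hA => ⟨?_, hA x le_rfl⟩
      rw [tabSet_nil]
      trivial
    have h6 : δ ≤ acc M (Found L V p x) x (M.p.eval x.length) [] [] * ((m ^ C : ℕ) : ℝ) :=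
      h3.trans (mul_le_mul_of_nonneg_right h4 (by positivity))
    have h7 : (2 : ℝ) ≤ D * δ := by
      rw [div_le_iff₀ hδ] at hD
      exact hD
    calc (2 : ℝ) ≤ D * δ := h7
      _ ≤ D * (acc M (Found L V p x) x (M.p.eval x.length) [] [] * ((m ^ C : ℕ) : ℝ)) :=
          mul_le_mul_of_nonneg_left h6 (by positivity)
      _ = _ := by rw [hTe, ← hm]; push_cast; ring
  refine ⟨rpV M V p T, T * M.p, polyTime_rpV M hV p T, fun x => ⟨fun hx => ?_, fun hx => ?_⟩⟩
  · -- the accepting case
    set t := M.p.eval x.length with ht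
    set K := T.eval x.length with hK
    set ε := acc M (Found L V p x) x t [] [] with hε
    have hm : (T * M.p).eval x.length = K * t := by rw [Polynomial.eval_mul]
    rw [hm]
    set bad : (Fin t → Bool) → Prop := fun r => ¬ (hit M V p x (List.ofFn r) = true) with hbad
    have hfound : ∀ r : List Bool, Found L V p x (lz M x t [] [] r) ↔ hit M V p x r = true := by
      intro r
      rw [hit_iff, Found]
      simp only [hx, true_imp_iff]
      rfl
    have hgood : (Nat.card {r : Fin t → Bool // hit M V p x (List.ofFn r) = true} : ℝ) =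
        ε * 2 ^ t := by
      rw [← count_lz M (Found L V p x) x t [] [] t le_rfl]
      congr 1
      exact Nat.card_congr (Equiv.subtypeEquivRight fun r => (hfound _).symm)
    have hsum : Nat.card {r : Fin t → Bool // hit M V p x (List.ofFn r) = true} +
        Nat.card {r : Fin t → Bool // bad r} = 2 ^ t := by
      rw [Nat.card_eq_fintype_card, Nat.card_eq_fintype_card, Fintype.card_subtype,
        Fintype.card_subtype]
      have e := Finset.card_filter_add_card_filter_not (s := Finset.univ)
        (fun r : Fin t → Bool => hit M V p x (List.ofFn r) = true)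
      rw [Finset.card_univ] at e
      simpa [hbad] using e
    have hbadc : (Nat.card {r : Fin t → Bool // bad r} : ℝ) = (1 - ε) * 2 ^ t := by
      have : ((Nat.card {r : Fin t → Bool // hit M V p x (List.ofFn r) = true} : ℕ) : ℝ) +
        ((Nat.card {r : Fin t → Bool // bad r} : ℕ) : ℝ) = 2 ^ t := by exact_mod_cast hsum
      rw [hgood] at this
      linarith
    have hε0 : 0 ≤ ε := acc_nonneg _ _ _ _ _ _
    have hε1 : ε ≤ 1 := by
      have h1 : (0 : ℝ) ≤ (1 - ε) * 2 ^ t := by rw [← hbadc]; positivity
      by_contra hcon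
      have h2 : (1 - ε) * 2 ^ t < 0 := mul_neg_of_neg_of_pos (by linarith) (by positivity)
      linarith
    have hpow := pow_one_sub_le hε0 hε1 K (hacc x)
    -- not accepted
    have hnot : Nat.card {f : Fin (K * t) → Bool //
        ¬ rpV M V p T (pairBits (List.ofFn f) x) = [true]} =
        (Nat.card {r : Fin t → Bool // bad r}) ^ K := by
      rw [← card_pi_bad K bad, ← card_blocks (fun v : Fin K → Fin t → Bool => ∀ i, bad (v i))]
      refine Nat.card_congr (Equiv.subtypeEquivRight fun f => ?_)
      have e1 : rpV M V p T (pairBits (List.ofFn f) x) =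
          [(List.range K).any (fun i => hit M V p x (blk t (List.ofFn f) i))] := by
        simp only [rpV, unpair_pairBits, hK, ht]
      rw [e1]
      simp only [List.cons.injEq, and_true, List.any_eq_true, List.mem_range, not_exists, not_and,
        hbad]
      constructor
      · intro h i
        have h1 := h i i.isLt
        rwa [blk_ofFn] at h1
      · intro h i hi
        have h1 := h ⟨i, hi⟩
        rw [← blk_ofFn] at h1
        exact h1
    have htot : Nat.card {f : Fin (K * t) → Bool //
        rpV M V p T (pairBits (List.ofFn f) x) = [true]} + Nat.card {f : Fin (K * t) → Bool //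
        ¬ rpV M V p T (pairBits (List.ofFn f) x) = [true]} = 2 ^ (K * t) := by
      rw [Nat.card_eq_fintype_card, Nat.card_eq_fintype_card, Fintype.card_subtype,
        Fintype.card_subtype]
      have e := Finset.card_filter_add_card_filter_not (s := Finset.univ)
        (fun f : Fin (K * t) → Bool => rpV M V p T (pairBits (List.ofFn f) x) = [true])
      rw [Finset.card_univ] at e
      simpa using e
    have htot' : ((Nat.card {f : Fin (K * t) → Bool //
        rpV M V p T (pairBits (List.ofFn f) x) = [true]} : ℕ) : ℝ) +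
        (((Nat.card {r : Fin t → Bool // bad r}) ^ K : ℕ) : ℝ) = 2 ^ (K * t) := by
      rw [← hnot]
      exact_mod_cast htot
    rw [Nat.cast_pow, hbadc, mul_pow, ← pow_mul, mul_comm t K] at htot'
    rw [accPr]
    rw [le_div_iff₀ (by positivity)]
    have h8 : (1 - ε) ^ K * 2 ^ (K * t) ≤ 1 / 3 * 2 ^ (K * t) :=
      mul_le_mul_of_nonneg_right hpow (by positivity)
    linarith
  · -- the rejecting case
    have h0 : accPr (rpV M V p T) ((T * M.p).eval x.length) x = 0 := by
      rw [accPr]
      have : IsEmpty {w : Fin ((T * M.p).eval x.length) → Bool //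
          rpV M V p T (pairBits (List.ofFn w) x) = [true]} := by
        constructor
        rintro ⟨w, hw⟩
        simp only [rpV, unpair_pairBits, List.cons.injEq, and_true, List.any_eq_true] at hw
        obtain ⟨i, _, hi⟩ := hw
        rw [hit_iff] at hi
        obtain ⟨z, _, hz1, hz2⟩ := hi
        exact hx ((hLV x).2 ⟨z, hz2, hz1⟩)
      rw [Nat.card_of_isEmpty]
      simp
    rw [h0]
    norm_num

end Pool.Agent.Z45.OG
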