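import Pool.Agent.Z45.OG.Ppoly
import Pool.Agent.Z45.OG.Blocks
import Pool.Agent.H620R2.GaugeR.R8
import Pool.Agent.H620R2.GaugeR.R2

/-!
# Almost every oracle helps for problems in BPP
-/

namespace Pool.Agent.Z45.OG

open Pool.Agent.NPC Pool.Agent.H620R2.Gauge MeasureTheory H568R2

/-- the answer is wrong -/
def WrongV (L : Set (List Bool)) (V : List Bool → List Bool) (x w : List Bool) : Prop :=
  ¬ (x ∈ L ↔ V (pairBits w x) = [true])

open Classical in
theorem third_bad {L : Set (List Bool)} {V : List Bool → List Bool} {P : ℕ} {x : List Bool}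
    (h1 : x ∈ L → 2 / 3 ≤ accPr V P x) (h2 : x ∉ L → accPr V P x ≤ 1 / 3) :
    3 * (Finset.univ.filter (fun r : Fin P → Bool => WrongV L V x (List.ofFn r))).card ≤
      Fintype.card (Fin P → Bool) := by
  have h0 : (Nat.card {w : Fin P → Bool // V (pairBits (List.ofFn w) x) = [true]}) =
      (Finset.univ.filter (fun r : Fin P → Bool =>
        V (pairBits (List.ofFn r) x) = [true])).card := by
    rw [Nat.card_eq_fintype_card, Fintype.card_subtype]
  have hc : Fintype.card (Fin P → Bool) = 2 ^ P := by simp
  have hpos : (0 : ℝ) < 2 ^ P := by positivity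
  rw [hc]
  by_cases hx : x ∈ L
  · have h3 := h1 hx
    rw [accPr, h0, le_div_iff₀ hpos] at h3
    have e := Finset.card_filter_add_card_filter_not (s := Finset.univ)
      (fun r : Fin P → Bool => V (pairBits (List.ofFn r) x) = [true])
    rw [Finset.card_univ, hc] at e
    have e2 : (Finset.univ.filter (fun r : Fin P → Bool => WrongV L V x (List.ofFn r))).card =
        (Finset.univ.filter (fun r : Fin P → Bool =>
          ¬ V (pairBits (List.ofFn r) x) = [true])).card := by
      congr 1
      apply Finset.filter_congr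
      intro r _
      simp [WrongV, hx]
    rw [e2]
    have e3 : (((Finset.univ.filter (fun r : Fin P → Bool =>
        V (pairBits (List.ofFn r) x) = [true])).card : ℕ) : ℝ) +
        (((Finset.univ.filter (fun r : Fin P → Bool =>
          ¬ V (pairBits (List.ofFn r) x) = [true])).card : ℕ) : ℝ) = 2 ^ P := by
      exact_mod_cast e
    have e4 : 3 * (((Finset.univ.filter (fun r : Fin P → Bool =>
          ¬ V (pairBits (List.ofFn r) x) = [true])).card : ℕ) : ℝ) ≤ 2 ^ P := by linarith
    exact_mod_cast e4
  · have h3 := h2 hx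
    rw [accPr, h0, div_le_iff₀ hpos] at h3
    have e2 : (Finset.univ.filter (fun r : Fin P → Bool => WrongV L V x (List.ofFn r))).card =
        (Finset.univ.filter (fun r : Fin P → Bool =>
          V (pairBits (List.ofFn r) x) = [true])).card := by
      congr 1
      apply Finset.filter_congr
      intro r _
      simp [WrongV, hx]
    rw [e2]
    have e4 : 3 * (((Finset.univ.filter (fun r : Fin P → Bool =>
          V (pairBits (List.ofFn r) x) = [true])).card : ℕ) : ℝ) ≤ 2 ^ P := by linarith
    exact_mod_cast e4

theorem length_filter_range (T : ℕ) (P : ℕ → Prop) [DecidablePred P] :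
    ((List.range T).filter (fun i => decide (P i))).length =
      (Finset.univ.filter (fun i : Fin T => P i)).card := by
  have h : List.range T = List.ofFn (fun i : Fin T => (i : ℕ)) := by
    rw [List.ofFn_eq_map, List.map_coe_finRange_eq_range]
  rw [h]
  exact length_filter_ofFn (fun i : Fin T => (i : ℕ)) P

/-- the majority of the answers for the blocks of `w` -/
def maj (V : List Bool → List Bool) (P k : ℕ) (x w : List Bool) : Bool :=
  decide (12 * k ≤ 2 * ((List.range (12 * k)).filter (fun i =>
    decide (V (pairBits (blk P w i) x) = [true]))).length)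

open Classical in
theorem card_wrong {L : Set (List Bool)} {V : List Bool → List Bool} {P : ℕ} {x : List Bool}
    (h1 : x ∈ L → 2 / 3 ≤ accPr V P x) (h2 : x ∉ L → accPr V P x ≤ 1 / 3) (k : ℕ) :
    2 ^ k * Nat.card {f : Fin (12 * k * P) → Bool //
      ¬ (x ∈ L ↔ maj V P k x (List.ofFn f) = true)} ≤ 2 ^ (12 * k * P) := by
  set bad : (Fin P → Bool) → Prop := fun r => WrongV L V x (List.ofFn r) with hbad
  have hamp := amp bad (third_bad h1 h2) k
  have hc : Fintype.card (Fin P → Bool) ^ (12 * k) = 2 ^ (12 * k * P) := by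
    have : Fintype.card (Fin P → Bool) = 2 ^ P := by simp
    rw [this, ← pow_mul, mul_comm P]
  rw [hc] at hamp
  refine le_trans (Nat.mul_le_mul_left _ ?_) hamp
  have hcard : (Finset.univ.filter (fun w : Fin (12 * k) → Fin P → Bool =>
      6 * k ≤ (Finset.univ.filter (fun i => bad (w i))).card)).card =
      Nat.card {w : Fin (12 * k) → Fin P → Bool //
        6 * k ≤ (Finset.univ.filter (fun i => bad (w i))).card} := by
    rw [Nat.card_eq_fintype_card, Fintype.card_subtype]
  rw [hcard, ← card_blocks (fun w : Fin (12 * k) → Fin P → Bool =>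
        6 * k ≤ (Finset.univ.filter (fun i => bad (w i))).card)]
  rw [Nat.card_eq_fintype_card, Nat.card_eq_fintype_card]
  refine Fintype.card_le_of_injective (fun f => ⟨f.1, ?_⟩) ?_
  · have hf := f.2
    have e1 : ((List.range (12 * k)).filter (fun i =>
        decide (V (pairBits (blk P (List.ofFn f.1) i) x) = [true]))).length =
        (Finset.univ.filter (fun i : Fin (12 * k) =>
          V (pairBits (List.ofFn (fun j : Fin P => f.1 (finProdFinEquiv (i, j)))) x) =
            [true])).card := by
      rw [length_filter_range (12 * k) (fun i =>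
        V (pairBits (blk P (List.ofFn f.1) i) x) = [true])]
      congr 1
      apply Finset.filter_congr
      intro i _
      rw [blk_ofFn]
    rw [maj, e1, decide_eq_true_iff] at hf
    by_cases hx : x ∈ L
    · simp only [hx, true_iff, not_le] at hf
      have e := Finset.card_filter_add_card_filter_not (s := Finset.univ)
        (fun i : Fin (12 * k) =>
          V (pairBits (List.ofFn (fun j : Fin P => f.1 (finProdFinEquiv (i, j)))) x) = [true])
      rw [Finset.card_univ, Fintype.card_fin] at e
      have e2 : (Finset.univ.filter (fun i : Fin (12 * k) =>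
          bad (fun j => f.1 (finProdFinEquiv (i, j))))).card =
          (Finset.univ.filter (fun i : Fin (12 * k) =>
          ¬ V (pairBits (List.ofFn (fun j : Fin P => f.1 (finProdFinEquiv (i, j)))) x) =
            [true])).card := by
        congr 1
        apply Finset.filter_congr
        intro i _
        simp [hbad, WrongV, hx]
      rw [e2]
      omega
    · simp only [hx, false_iff, not_not] at hf
      have e2 : (Finset.univ.filter (fun i : Fin (12 * k) =>
          bad (fun j => f.1 (finProdFinEquiv (i, j))))).card =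
          (Finset.univ.filter (fun i : Fin (12 * k) =>
          V (pairBits (List.ofFn (fun j : Fin P => f.1 (finProdFinEquiv (i, j)))) x) =
            [true])).card := by
        congr 1
        apply Finset.filter_congr
        intro i _
        simp [hbad, WrongV, hx]
      rw [e2]
      omega
  · intro f g h
    simp only [Subtype.mk.injEq] at h
    exact Subtype.ext h

/-- the place of the random bit number `i` for the input `x` -/
def place (x : List Bool) (i : ℕ) : List Bool := pairBits x (Nat.bits i)

theorem place_inj {x : List Bool} {i j : ℕ} (h : place x i = place x j) : i = j := by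
  have h1 := congrArg unpair h
  rw [place, place, unpair_pairBits, unpair_pairBits] at h1
  have h2 : Nat.bits i = Nat.bits j := congrArg Prod.snd h1
  have h3 : Nat.digits 2 i = Nat.digits 2 j := by
    rw [Nat.digits_two_eq_bits, Nat.digits_two_eq_bits, h2]
  exact Nat.digits_inj_iff.1 h3

theorem map_range_eq_ofFn (N : ℕ) (A : Oracle) (x : List Bool) :
    ((List.range N).map (fun i => place x i)).map A = List.ofFn (fun i : Fin N => A (place x i)) := by
  apply List.ext_getElem
  · simp
  · intro i h1 h2
    simp

theorem Ex_inst {I A : Type} [Fintype I] [Fintype A] (d1 d2 : DecidableEq I) (w : A → ℝ)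
    (F : (I → A) → ℝ) : @Ex I _ d1 A _ w F = @Ex I _ d2 A _ w F := by
  have h : d1 = d2 := Subsingleton.elim _ _
  subst h
  rfl

theorem measure_wrong {L : Set (List Bool)} {V : List Bool → List Bool} {P : ℕ} {x : List Bool}
    (h1 : x ∈ L → 2 / 3 ≤ accPr V P x) (h2 : x ∉ L → accPr V P x ≤ 1 / 3) (k : ℕ) :
    ranO {A | ¬ (x ∈ L ↔ maj V P k x
      (((List.range (12 * k * P)).map (fun i => place x i)).map A) = true)} ≤ (2⁻¹) ^ k := by
  classical
  have h3 := ranO_cyl_le (fun i : Fin (12 * k * P) => place x i)
    (fun i j h => Fin.ext (place_inj h)) (fun a => ¬ (x ∈ L ↔ maj V P k x (List.ofFn a) = true))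
  have h4 : {A : Oracle | ¬ (x ∈ L ↔ maj V P k x
      (((List.range (12 * k * P)).map (fun i => place x i)).map A) = true)} =
      {B : Oracle | ¬ (x ∈ L ↔ maj V P k x (List.ofFn (fun i : Fin (12 * k * P) =>
        B (place x i))) = true)} := by
    ext A
    simp only [Set.mem_ofPred_eq, map_range_eq_ofFn]
  rw [h4]
  refine h3.trans ?_
  have h8 := card_of_Ex (N := 12 * k * P) (fun a : Fin (12 * k * P) → Bool =>
    ¬ (x ∈ L ↔ maj V P k x (List.ofFn a) = true))
  have h5 := card_wrong h1 h2 k
  rw [Nat.card_eq_fintype_card, Fintype.card_subtype] at h5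
  have h6 : (2 : ℝ) ^ k * ((Finset.univ.filter (fun f : Fin (12 * k * P) → Bool =>
      ¬ (x ∈ L ↔ maj V P k x (List.ofFn f) = true))).card : ℕ) ≤ 2 ^ (12 * k * P) := by
    exact_mod_cast h5
  have h7 : (((Finset.univ.filter (fun f : Fin (12 * k * P) → Bool =>
      ¬ (x ∈ L ↔ maj V P k x (List.ofFn f) = true))).card : ℕ) : ℝ) *
      2 ^ (-((12 * k * P : ℕ) : ℝ)) ≤ (1 / 2) ^ k := by
    rw [Real.rpow_neg (by norm_num), Real.rpow_natCast, ← div_eq_mul_inv,
      div_le_iff₀ (by positivity), one_div, inv_pow, ← div_eq_inv_mul, le_div_iff₀ (by positivity)]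
    linarith
  have h9 : (((Finset.univ.filter (fun f : Fin (12 * k * P) → Bool =>
      ¬ (x ∈ L ↔ maj V P k x (List.ofFn f) = true))).card : ℕ) : ℝ) *
      2 ^ (-((12 * k * P : ℕ) : ℝ)) = _ := Eq.trans (by
        congr 2
        exact congrArg Finset.card (Finset.ext fun a => by simp only [Finset.mem_filter])) h8
  refine (ENNReal.ofReal_le_ofReal (le_trans (le_of_eq
    ((Ex_inst _ _ _ _).trans h9.symm)) h7)).trans (le_of_eq ?_)
  rw [ENNReal.ofReal_pow (by norm_num), one_div, ENNReal.ofReal_inv_of_pos (by norm_num)]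
  simp

theorem tsum_bound (e : ℕ) : ∑' n : ℕ, (2 : ENNReal) ^ n * (2⁻¹) ^ (2 * n + 2 + e) =
    (2⁻¹) ^ (e + 1) := by
  have h1 : ∀ n : ℕ, (2 : ENNReal) ^ n * (2⁻¹) ^ (2 * n + 2 + e) =
      (2⁻¹) ^ (e + 2) * (2⁻¹) ^ n := by
    intro n
    have e1 : (2⁻¹ : ENNReal) ^ (2 * n + 2 + e) = (2⁻¹) ^ n * ((2⁻¹) ^ (e + 2) * (2⁻¹) ^ n) := by
      rw [← pow_add, ← pow_add]
      congr 1
      ring
    rw [e1, ← mul_assoc, ← mul_pow, ENNReal.mul_inv_cancel (by norm_num) (by norm_num), one_pow,
      one_mul]
  simp only [h1]
  rw [ENNReal.tsum_mul_left, ENNReal.tsum_geometric, ENNReal.one_sub_inv_two, inv_inv,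
    pow_succ, mul_assoc, ENNReal.inv_mul_cancel (by norm_num) (by norm_num), mul_one]

/-- the algorithm that reads its random bits in the oracle -/
theorem isFP_maj {V : List Bool → List Bool} (hV : PolyTime V) (p : Polynomial ℕ) (e : ℕ)
    (A : Oracle) : IsFP A (fun x => [maj V (p.eval x.length) (2 * x.length + 2 + e) x
      (((List.range (12 * (2 * x.length + 2 + e) * p.eval x.length)).map
        (fun i => place x i)).map A)]) := by
  have hlen : UPoly (fun x : List Bool => x.length) := UPoly.length Poly.id
  have hk : UPoly (fun x : List Bool => 12 * (2 * x.length + 2 + e)) := by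
    have := hlen.eval (Polynomial.C 12 * (Polynomial.C 2 * Polynomial.X + Polynomial.C 2 +
      Polynomial.C e))
    simpa using this
  have hP : UPoly (fun x : List Bool => p.eval x.length) := hlen.eval p
  have hQ : Poly (fun x : List Bool =>
      (List.range (12 * (2 * x.length + 2 + e) * p.eval x.length)).map (fun i => place x i)) :=
    NPC.Poly.map (F := fun x i => place x i) (hk.mul hP).range
      (H622R2.poly_pairBits (Poly.fst Poly.id) (Poly.natBits (Poly.snd Poly.id)))
  have h0 : Poly (fun q : List Bool × List Bool => q.1) := Poly.fst Poly.id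
  have hfil : Poly (fun q : List Bool × List Bool =>
      (List.range (12 * (2 * q.1.length + 2 + e))).filter (fun i =>
        decide (V (pairBits (blk (p.eval q.1.length) q.2 i) q.1) = [true]))) := by
    refine Poly.filter (p := fun (q : List Bool × List Bool) i =>
        decide (V (pairBits (blk (p.eval q.1.length) q.2 i) q.1) = [true]))
      (hk.comp h0).range ?_
    refine Poly.decide_eq ((H622R2.poly_of_polyTime hV).comp (H622R2.poly_pairBits
      (poly_blk (t := fun z : (List Bool × List Bool) × ℕ => p.eval z.1.1.length)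
        (w := fun z => z.1.2) (i := fun z => z.2) ((hP.comp h0).comp (Poly.fst Poly.id))
        (Poly.snd (Poly.fst Poly.id)) (Poly.snd Poly.id)) (Poly.fst (Poly.fst Poly.id))))
      (NPC.Poly.const _)
  have hH : Poly (fun q : List Bool × List Bool =>
      [maj V (p.eval q.1.length) (2 * q.1.length + 2 + e) q.1 q.2]) := by
    refine Poly.cons ?_ (NPC.Poly.const [])
    exact Poly.decide_le (hk.comp h0).toPoly (Poly.mul (NPC.Poly.const 2) (Poly.length hfil))
  exact IsFP.tt (A := A) hQ hH

theorem ae_helpers {L : Set (List Bool)} (hL : InBPP L) : ranO (helpers L)ᶜ = 0 := by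
  obtain ⟨V, p, hV, hVL⟩ := hL
  have key : ∀ e : ℕ, ranO (helpers L)ᶜ ≤ (2⁻¹) ^ (e + 1) := by
    intro e
    set W : List Bool → Set Oracle := fun x => {A | ¬ (x ∈ L ↔
      maj V (p.eval x.length) (2 * x.length + 2 + e) x
        (((List.range (12 * (2 * x.length + 2 + e) * p.eval x.length)).map
          (fun i => place x i)).map A) = true)} with hW
    have h1 : (helpers L)ᶜ ⊆ ⋃ n : ℕ, ⋃ v : Fin n → Bool, W (List.ofFn v) := by
      intro A hA
      by_contra hcon
      apply hA
      refine ⟨_, isFP_maj hV p e A, fun x => ?_⟩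
      have h2 : A ∉ W x := by
        intro hx
        apply hcon
        refine Set.mem_iUnion.2 ⟨x.length, Set.mem_iUnion.2 ⟨x.get, ?_⟩⟩
        rw [List.ofFn_get]
        exact hx
      rw [hW] at h2
      simp only [Set.mem_ofPred_eq, not_not] at h2
      rw [h2]
      simp
    calc ranO (helpers L)ᶜ ≤ ranO (⋃ n : ℕ, ⋃ v : Fin n → Bool, W (List.ofFn v)) :=
          measure_mono h1
      _ ≤ ∑' n : ℕ, ranO (⋃ v : Fin n → Bool, W (List.ofFn v)) := measure_iUnion_le _
      _ ≤ ∑' n : ℕ, (2 : ENNReal) ^ n * (2⁻¹) ^ (2 * n + 2 + e) := by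
          refine ENNReal.tsum_le_tsum fun n => ?_
          refine (measure_iUnion_fintype_le _ _).trans ?_
          refine (Finset.sum_le_sum (g := fun _ => (2⁻¹ : ENNReal) ^ (2 * n + 2 + e))
            fun v _ => ?_).trans ?_
          · have h3 := measure_wrong (hVL (List.ofFn v)).1 (hVL (List.ofFn v)).2
              (2 * (List.ofFn v).length + 2 + e)
            simp only [hW]
            rw [List.length_ofFn] at h3 ⊢
            exact h3
          · rw [Finset.sum_const, Finset.card_univ, nsmul_eq_mul]
            simp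
      _ = _ := tsum_bound e
  have h2 : Filter.Tendsto (fun e : ℕ => (2⁻¹ : ENNReal) ^ (e + 1)) Filter.atTop (nhds 0) :=
    (ENNReal.tendsto_pow_atTop_nhds_zero_of_lt_one (by simp)).comp
      (Filter.tendsto_add_atTop_nat 1)
  exact le_antisymm (ge_of_tendsto' h2 key) (by simp)

end Pool.Agent.Z45.OG
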