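import Pool.Agent.Z45.OG.Ppoly
import Pool.Agent.H620R2.GaugeR.R2

/-!
# Helpful oracles in the sense of category
-/

namespace Pool.Agent.Z45.OG

open Pool.Agent.NPC Pool.Agent.H620R2.Gauge

/-- without further answers the simulation is the run with the oracle that is empty outside the
table -/
theorem lz_nil (M : Alg) (x : List Bool) (A : Oracle) : ∀ (n : ℕ) (a : List Bool) (τ : Tab),
    (∀ e ∈ τ, A e.1 = e.2) → (∀ q, look τ q = none → A q = false) →
    lz M x n a τ [] = M.run A x n a
  | 0, _, _, _, _ => rfl
  | n + 1, a, τ, h1, h2 => by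
    rw [lz, Alg.run]
    cases h : M.D (pairBits x a) with
    | nil => rfl
    | cons b q =>
      cases b with
      | true => rfl
      | false =>
        simp only
        cases hl : look τ q with
        | some c =>
          simp only
          have h3 : A q = c := h1 _ (look_some hl)
          rw [h3]
          exact lz_nil M x A n _ τ h1 h2
        | none =>
          simp only [List.headD_nil, List.tail_nil]
          have h3 : A q = false := h2 q hl
          rw [h3]
          refine lz_nil M x A n _ _ ?_ ?_
          · intro e he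
            rcases List.mem_cons.1 he with rfl | he
            · exact h3
            · exact h1 e he
          · intro q' hq'
            apply h2
            by_contra hne
            obtain ⟨c, hc⟩ := Option.ne_none_iff_exists'.1 hne
            have h4 := look_some hc
            exact look_none hq' (List.mem_map.2 ⟨_, List.mem_cons_of_mem _ h4, rfl⟩)

theorem continuous_out (M : Alg) (x : List Bool) (o : Option (List Bool)) :
    IsOpen {A : Oracle | M.out A x = o} := by
  obtain ⟨s, hs⟩ := M.out_local
  rw [isOpen_iff_forall_mem_open]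
  intro A hA
  obtain ⟨Q, _, _, hQ⟩ := hs A x
  refine ⟨{A' : Oracle | ∀ q ∈ Q, A' q = A q}, fun A' hA' => ?_, ?_, fun q _ => rfl⟩
  · exact (hQ A' hA').trans hA
  · have : {A' : Oracle | ∀ q ∈ Q, A' q = A q} =
        ⋂ q ∈ (Q : Set (List Bool)), {A' : Oracle | A' q = A q} := by
      ext A'; simp
    rw [this]
    refine Set.Finite.isOpen_biInter Q.finite_toSet fun q _ => ?_
    have hc : Continuous (fun A' : Oracle => A' q) := continuous_apply q
    exact (isOpen_discrete {A q}).preimage hc

theorem closed_right (M : Alg) (L : Set (List Bool)) :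
    IsClosed {A : Oracle | ∀ x, Right L x (M.out A x)} := by
  have h : {A : Oracle | ∀ x, Right L x (M.out A x)} =
      ⋂ x, {A : Oracle | Right L x (M.out A x)} := by
    ext A; simp
  rw [h]
  refine isClosed_iInter fun x => ?_
  rw [← isOpen_compl_iff]
  have h2 : {A : Oracle | Right L x (M.out A x)}ᶜ =
      ⋃ o ∈ {o | ¬ Right L x o}, {A : Oracle | M.out A x = o} := by
    ext A; simp
  rw [h2]
  exact isOpen_biUnion fun o _ => continuous_out M x o

theorem inP_of_nonmeagre {L : Set (List Bool)} (h : ¬ IsMeagre (helpers L)) : InP L := by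
  classical
  obtain ⟨M, hM⟩ : ∃ M : Alg, (interior {A : Oracle | ∀ x, Right L x (M.out A x)}).Nonempty := by
    by_contra hcon
    push Not at hcon
    apply h
    have h1 : IsMeagre (⋃ M : Alg, {A : Oracle | ∀ x, Right L x (M.out A x)}) := by
      refine isMeagre_iUnion fun M => IsNowhereDense.isMeagre ?_
      rw [(closed_right M L).isNowhereDense_iff]
      exact hcon M
    exact h1.mono (helpers_alg L)
  obtain ⟨A, hA⟩ := hM
  rw [mem_interior_iff_mem_nhds, nhds_pi, Filter.mem_pi] at hA
  obtain ⟨I, hI, t, ht, hsub⟩ := hA
  set A1 : Oracle := fun q => if q ∈ I then A q else false with hA1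
  have h1 : A1 ∈ {A : Oracle | ∀ x, Right L x (M.out A x)} := by
    apply hsub
    intro q hq
    simp only [hA1, hq, if_true]
    exact mem_of_mem_nhds (ht q)
  set τ : Tab := hI.toFinset.toList.map (fun q => (q, A q)) with hτ
  have hlz : ∀ x, M.out A1 x = lz M x (M.p.eval x.length) [] τ [] := by
    intro x
    rw [Alg.out]
    refine (lz_nil M x A1 _ [] τ ?_ ?_).symm
    · intro e he
      rw [hτ, List.mem_map] at he
      obtain ⟨q, hq, rfl⟩ := he
      rw [Finset.mem_toList, Set.Finite.mem_toFinset] at hq
      simp only [hA1, hq, if_true]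
    · intro q hq
      have h2 := look_none hq
      simp only [hA1]
      rw [if_neg]
      intro hqI
      apply h2
      rw [hτ, List.map_map, List.mem_map]
      exact ⟨q, by simpa using hqI, rfl⟩
  have hp : Poly (fun x : List Bool => lz M x (M.p.eval x.length) [] τ []) :=
    poly_lz M (x := fun x : List Bool => x) (τ := fun _ => τ) (r := fun _ => []) Poly.id
      (NPC.Poly.const _) (NPC.Poly.const _)
  refine ⟨fun x => [decide (lz M x (M.p.eval x.length) [] τ [] = some [true])],
    polyTime_of_poly (Poly.decide_eq hp (NPC.Poly.const _)), fun x => ?_⟩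
  have h2 : x ∈ L ↔ M.out A1 x = some [true] := h1 x
  rw [h2, hlz]
  simp

theorem isP_of_inP {L : Set (List Bool)} (h : InP L) (A : Oracle) : IsP A L := by
  obtain ⟨V, hV, hVL⟩ := h
  exact ⟨V, IsFP.of_poly (H622R2.poly_of_polyTime hV), hVL⟩

theorem not_isMeagre_univ_oracle : ¬ IsMeagre (Set.univ : Set Oracle) :=
  not_isMeagre_of_isOpen isOpen_univ Set.univ_nonempty

end Pool.Agent.Z45.OG
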