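import Pool.Agent.H620R2.GaugeR.Defs

/-!
# Bounded error randomised polynomial time, polynomial advice, helpful oracles

The classes in this file are classes without oracles; `PolyTime` and `NP` are those of
`Pool/Agent/NPC/Defs.lean`.
-/

namespace Pool.Agent.Z45.OG

open Pool.Agent.NPC Pool.Agent.H620R2.Gauge

/-- The language `L` is in `P`. -/
def InPtime (L : Set (List Bool)) : Prop :=
  ∃ V : List Bool → List Bool, PolyTime V ∧ ∀ x, x ∈ L ↔ V x = [true]

/-- The language `L` is in `BPP`: for a random string `w` of length `p(|x|)` the polynomial-time
algorithm `V` accepts `⟨w, x⟩` with probability at least `2/3` if `x` is in `L`, and with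
probability at most `1/3` if it is not. -/
def InBPP (L : Set (List Bool)) : Prop :=
  ∃ (V : List Bool → List Bool) (p : Polynomial ℕ), PolyTime V ∧ ∀ x,
    (x ∈ L → 2 / 3 ≤ accPr V (p.eval x.length) x) ∧
    (x ∉ L → accPr V (p.eval x.length) x ≤ 1 / 3)

/-- The language `L` is in `P/poly`: it is decided in polynomial time with the help of an advice
string `h |x|` of polynomially bounded length, which depends on the length of `x` only. -/
def InPpoly (L : Set (List Bool)) : Prop :=
  ∃ (V : List Bool → List Bool) (h : ℕ → List Bool) (p : Polynomial ℕ), PolyTime V ∧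
    (∀ n, (h n).length ≤ p.eval n) ∧ ∀ x, x ∈ L ↔ V (pairBits x (h x.length)) = [true]

/-- The oracles relative to which the language `L` is in `P`. -/
def helpers (L : Set (List Bool)) : Set Oracle := {A | IsP A L}

/-- The oracles relative to which all languages in `NP` (without oracle) are in `P`. -/
def helpersNP : Set Oracle := {A | ∀ L, InNP L → IsP A L}

end Pool.Agent.Z45.OG
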