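import Pool.Agent.Z45.OG.Defs
import Pool.Agent.H620R2.GaugeR.R8
import Pool.Agent.H620R2.GaugeR.R2
import Pool.Agent.H620R2.Gauge2.V7

/-!
# Advice strings can be written into few places of an oracle
-/

namespace Pool.Agent.Z45.OG

open Pool.Agent.NPC Pool.Agent.H620R2.Gauge MeasureTheory

theorem poly_le_pow (p : Polynomial ℕ) : ∃ d : ℕ, ∀ n, p.eval n ≤ (n + 2) ^ d := by
  induction p using Polynomial.induction_on' with
  | add p q hp hq =>
    obtain ⟨a, ha⟩ := hp
    obtain ⟨b, hb⟩ := hq
    refine ⟨max a b + 1, fun n => ?_⟩
    rw [Polynomial.eval_add, pow_succ]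
    have h1 : (n + 2) ^ a ≤ (n + 2) ^ max a b :=
      Nat.pow_le_pow_right (by omega) (le_max_left _ _)
    have h2 : (n + 2) ^ b ≤ (n + 2) ^ max a b :=
      Nat.pow_le_pow_right (by omega) (le_max_right _ _)
    have h3 := ha n
    have h4 := hb n
    have h5 : (n + 2) ^ max a b * 2 ≤ (n + 2) ^ max a b * (n + 2) :=
      Nat.mul_le_mul_left _ (by omega)
    omega
  | monomial k c =>
    refine ⟨c + k, fun n => ?_⟩
    rw [Polynomial.eval_monomial, pow_add]
    refine Nat.mul_le_mul ?_ (Nat.pow_le_pow_left (by omega) k)
    exact (Nat.lt_two_pow_self (n := c)).le.trans (Nat.pow_le_pow_left (by omega) c)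

/-- the places for the advice for length `n` -/
def pos (k n i : ℕ) : List Bool := List.replicate ((n + 2) ^ k) true ++ false :: Nat.bits i

theorem replicate_inj {a b : ℕ} : ∀ {u v : List Bool},
    List.replicate a true ++ false :: u = List.replicate b true ++ false :: v → a = b ∧ u = v := by
  induction a generalizing b with
  | zero =>
    intro u v h
    cases b with
    | zero => simpa using h
    | succ b => simp [List.replicate_succ] at h
  | succ a ih =>
    intro u v h
    cases b with
    | zero => simp [List.replicate_succ] at h
    | succ b =>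
      rw [List.replicate_succ, List.replicate_succ, List.cons_append, List.cons_append,
        List.cons.injEq] at h
      obtain ⟨h1, h2⟩ := ih h.2
      exact ⟨by omega, h2⟩

theorem pos_inj {k n i n' i' : ℕ} (hk : k ≠ 0) (h : pos k n i = pos k n' i') :
    n = n' ∧ i = i' := by
  obtain ⟨h1, h2⟩ := replicate_inj h
  refine ⟨?_, ?_⟩
  · have := Nat.pow_left_injective hk h1
    omega
  · have h3 : Nat.digits 2 i = Nat.digits 2 i' := by
      rw [Nat.digits_two_eq_bits, Nat.digits_two_eq_bits, h2]
    exact Nat.digits_inj_iff.1 h3

theorem flatMap_decode (l : List Bool) (P : ℕ) (h : l.length ≤ P) :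
    (List.range P).flatMap (fun j => if j < l.length then [l.getD j false] else []) = l := by
  obtain ⟨m, rfl⟩ := Nat.exists_eq_add_of_le h
  rw [List.range_add, List.flatMap_append]
  have h1 : (List.range l.length).flatMap
      (fun j => if j < l.length then [l.getD j false] else []) = l := by
    have e1 : (List.range l.length).flatMap
        (fun j => if j < l.length then [l.getD j false] else []) =
        (List.range l.length).flatMap (fun j => [l.getD j false]) := by
      apply List.flatMap_congr
      intro j hj
      rw [if_pos (List.mem_range.1 hj)]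
    rw [e1, ← List.map_eq_flatMap]
    apply List.ext_getElem
    · simp
    · intro i h1 h2
      simp only [List.getElem_map, List.getElem_range]
      rw [List.getD_eq_getElem _ _ h2]
  have h2 : ((List.range m).map (fun x => l.length + x)).flatMap
      (fun j => if j < l.length then [l.getD j false] else []) = [] := by
    rw [List.flatMap_eq_nil_iff]
    intro j hj
    obtain ⟨i, _, rfl⟩ := List.mem_map.1 hj
    rw [if_neg (by omega)]
  rw [h1, h2, List.append_nil]

open Classical in
theorem nonnull_of_inPpoly {L : Set (List Bool)} (hL : InPpoly L) {c : ℝ} (hc : 0 < c) :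
    ¬ Null (fun N => (Real.logb 2 N) ^ c) (helpers L) := by
  obtain ⟨V, h, p, hV, hh, hx⟩ := hL
  obtain ⟨d, hd⟩ := poly_le_pow p
  obtain ⟨k, hk⟩ := exists_nat_ge ((d + 2) / c)
  have hk0 : k ≠ 0 := by
    rintro rfl
    have : (0 : ℝ) < (d + 2) / c := by positivity
    simp only [Nat.cast_zero] at hk
    linarith
  have hkc : ((d : ℝ) + 2) ≤ k * c := by
    rw [div_le_iff₀ hc] at hk
    exact hk
  -- the bits of the code
  set cb : ℕ → ℕ → Bool := fun n i =>
    if i % 2 = 0 then decide (i / 2 < (h n).length) else (h n).getD (i / 2) false with hcb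
  set T : Set (List Bool) := {y | ∃ n i, i < 2 * p.eval n ∧ y = pos k n i} with hT
  set Φ : Oracle → Oracle := fun B y =>
    if hy : y ∈ T then cb hy.choose hy.choose_spec.choose else B y with hΦ
  have hΦpos : ∀ B n i, i < 2 * p.eval n → Φ B (pos k n i) = cb n i := by
    intro B n i hi
    have hy : pos k n i ∈ T := ⟨n, i, hi, rfl⟩
    rw [hΦ]
    simp only
    rw [dif_pos hy]
    obtain ⟨h1, h2⟩ := pos_inj hk0 hy.choose_spec.choose_spec.2
    exact congrArg₂ cb h1.symm h2.symm
  refine not_null_of _ Set.univ (by rw [measure_univ]; exact one_pos) Φ T ?_ 0 ?_ _ ?_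
  · intro B y hy
    rw [hΦ]
    simp only
    rw [dif_neg hy]
  · intro N
    rw [add_zero]
    set ℓ := Nat.log 2 N with hℓ
    set r := Nat.findGreatest (fun r => r ^ k ≤ ℓ) ℓ with hr
    have hrk : r ^ k ≤ ℓ := by
      have := Nat.findGreatest_spec (P := fun r => r ^ k ≤ ℓ) (m := 0) (n := ℓ) (Nat.zero_le _)
        (by simp [zero_pow hk0])
      exact this
    have hlog : (0 : ℝ) ≤ Real.logb 2 N := by
      rcases Nat.eq_zero_or_pos N with rfl | hN
      · simp
      · exact Real.logb_nonneg (by norm_num) (by exact_mod_cast hN)
    by_cases hr2 : 2 ≤ r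
    · have hcard : ((Finset.range N).filter (fun i => str i ∈ T)).card ≤ r * (2 * r ^ d) := by
        have hsub : ((Finset.range N).filter (fun i => str i ∈ T)) ⊆
            ((Finset.range r) ×ˢ (Finset.range (2 * r ^ d))).image
              (fun q => idx (pos k q.1 q.2)) := by
          intro i' hi'
          rw [Finset.mem_filter, Finset.mem_range] at hi'
          obtain ⟨hiN, n, i, hi, hs⟩ := hi'
          have h1 := congrArg List.length hs
          rw [length_str] at h1
          have h2 : Nat.log 2 (i' + 1) ≤ ℓ := Nat.log_mono_right (by omega)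
          have h3 : (n + 2) ^ k ≤ ℓ := by
            rw [pos, List.length_append, List.length_replicate] at h1
            omega
          have h4 : n + 2 ≤ ℓ := (Nat.le_self_pow hk0 _).trans h3
          have h5 : n + 2 ≤ r := Nat.le_findGreatest h4 h3
          rw [Finset.mem_image]
          refine ⟨(n, i), ?_, ?_⟩
          · rw [Finset.mem_product, Finset.mem_range, Finset.mem_range]
            refine ⟨by simp only; omega, ?_⟩
            simp only
            refine hi.trans_le (Nat.mul_le_mul_left _ ((hd n).trans ?_))
            exact Nat.pow_le_pow_left h5 d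
          · simp only
            rw [← hs, idx_str]
        refine (Finset.card_le_card hsub).trans (Finset.card_image_le.trans ?_)
        rw [Finset.card_product, Finset.card_range, Finset.card_range]
      have h6 : r * (2 * r ^ d) ≤ r ^ (d + 2) := by
        have e : r ^ (d + 2) = r * (r * r ^ d) := by ring
        rw [e]
        exact Nat.mul_le_mul_left _ (Nat.mul_le_mul_right _ hr2)
      have h7 : ((((Finset.range N).filter (fun i => str i ∈ T)).card : ℕ) : ℝ) ≤
          ((r : ℝ)) ^ ((d : ℝ) + 2) := by
        have : ((((Finset.range N).filter (fun i => str i ∈ T)).card : ℕ) : ℝ) ≤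
            ((r ^ (d + 2) : ℕ) : ℝ) := by exact_mod_cast hcard.trans h6
        refine this.trans (le_of_eq ?_)
        rw [Nat.cast_pow, ← Real.rpow_natCast]
        push_cast
        rfl
      have hr1 : (1 : ℝ) ≤ r := by
        have : 1 ≤ r := by omega
        exact_mod_cast this
      have hN : N ≠ 0 := by
        rintro rfl
        simp only [Nat.log_zero_right] at hℓ
        rw [hℓ] at hrk
        have : 0 < r ^ k := by positivity
        omega
      have h8 : ((r : ℝ) ^ k) ≤ Real.logb 2 N := by
        have e1 : ((r ^ k : ℕ) : ℝ) ≤ (ℓ : ℝ) := by exact_mod_cast hrk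
        rw [Nat.cast_pow] at e1
        refine e1.trans ?_
        have e2 := Real.natLog_le_logb N 2
        exact_mod_cast e2
      calc ((((Finset.range N).filter (fun i => str i ∈ T)).card : ℕ) : ℝ)
          ≤ (r : ℝ) ^ ((d : ℝ) + 2) := h7
        _ ≤ (r : ℝ) ^ ((k : ℝ) * c) := Real.rpow_le_rpow_of_exponent_le hr1 hkc
        _ = ((r : ℝ) ^ k) ^ c := by
            rw [Real.rpow_mul (by positivity), Real.rpow_natCast]
        _ ≤ (Real.logb 2 N) ^ c := Real.rpow_le_rpow (by positivity) h8 hc.le
    · have hempty : (Finset.range N).filter (fun i => str i ∈ T) = ∅ := by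
        rw [Finset.filter_eq_empty_iff]
        intro i' hi'
        rw [Finset.mem_range] at hi'
        rintro ⟨n, i, hi, hs⟩
        have h1 := congrArg List.length hs
        rw [length_str] at h1
        have h2 : Nat.log 2 (i' + 1) ≤ ℓ := Nat.log_mono_right (by omega)
        have h3 : (n + 2) ^ k ≤ ℓ := by
          rw [pos, List.length_append, List.length_replicate] at h1
          omega
        have h4 : n + 2 ≤ ℓ := (Nat.le_self_pow hk0 _).trans h3
        have h5 : n + 2 ≤ r := Nat.le_findGreatest h4 h3
        omega
      rw [hempty]
      simp only [Finset.card_empty, Nat.cast_zero]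
      exact Real.rpow_nonneg hlog _
  · intro B _
    have hVp := H622R2.poly_of_polyTime hV
    have hlen : UPoly (fun x : List Bool => x.length) := UPoly.length Poly.id
    have hu : UPoly (fun x : List Bool => (x.length + 2) ^ k) := by
      have := hlen.eval ((Polynomial.X + Polynomial.C 2) ^ k)
      simpa using this
    have hQ : Poly (fun x : List Bool => (List.range (2 * p.eval x.length)).map
        (fun i => pos k x.length i)) := by
      refine NPC.Poly.map (F := fun x i => pos k x.length i)
        (((UPoly.const 2).mul (hlen.eval p)).range) ?_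
      refine Poly.append ((V7.poly_replicate hu).comp (Poly.fst Poly.id)) (Poly.cons
        (NPC.Poly.const false) (Poly.natBits (Poly.snd Poly.id)))
    have hH : Poly (fun q : List Bool × List Bool => V (pairBits q.1
        ((List.range (p.eval q.1.length)).flatMap (fun j =>
          if q.2.getD (2 * j) false = true then [q.2.getD (2 * j + 1) false] else [])))) := by
      refine hVp.comp (H622R2.poly_pairBits (Poly.fst Poly.id) ?_)
      refine Poly.flatMap (F := fun (q : List Bool × List Bool) j =>
          if q.2.getD (2 * j) false = true then [q.2.getD (2 * j + 1) false] else [])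
        ((hlen.eval p).comp (Poly.fst Poly.id)).range ?_
      have g1 : Poly (fun z : (List Bool × List Bool) × ℕ => z.1.2) :=
        Poly.snd (Poly.fst Poly.id)
      have g2 : Poly (fun z : (List Bool × List Bool) × ℕ => z.2) := Poly.snd Poly.id
      have g3 : Poly (fun z : (List Bool × List Bool) × ℕ => 2 * z.2) :=
        Poly.mul (NPC.Poly.const 2) g2
      refine Poly.ite (Poly.decide_eq (Poly.getD g1 g3 (NPC.Poly.const _))
        (NPC.Poly.const _)) (Poly.cons (Poly.getD g1 (Poly.succ g3) (NPC.Poly.const _))
          (NPC.Poly.const [])) (NPC.Poly.const [])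
    have hF := IsFP.tt (A := Φ B) hQ hH
    refine ⟨_, hF, fun x => ?_⟩
    simp only
    rw [hx x]
    have key : (List.range (p.eval x.length)).flatMap (fun j =>
          if (((List.range (2 * p.eval x.length)).map (fun i => pos k x.length i)).map
            (Φ B)).getD (2 * j) false = true then
            [(((List.range (2 * p.eval x.length)).map (fun i => pos k x.length i)).map
              (Φ B)).getD (2 * j + 1) false] else []) = h x.length := by
      have hget : ∀ i < 2 * p.eval x.length,
          (((List.range (2 * p.eval x.length)).map (fun i => pos k x.length i)).map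
            (Φ B)).getD i false = cb x.length i := by
        intro i hi
        rw [List.getD_eq_getElem _ _ (by simpa using hi)]
        simp only [List.getElem_map, List.getElem_range]
        exact hΦpos B _ _ hi
      conv_rhs => rw [← flatMap_decode (h x.length) (p.eval x.length) (hh _)]
      apply List.flatMap_congr
      intro j hj
      rw [List.mem_range] at hj
      rw [hget _ (by omega), hget _ (by omega)]
      have e1 : cb x.length (2 * j) = decide (j < (h x.length).length) := by
        simp only [hcb]
        rw [if_pos (by omega)]
        congr 2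
        omega
      have e2 : cb x.length (2 * j + 1) = (h x.length).getD j false := by
        simp only [hcb]
        rw [if_neg (by omega)]
        congr 1
        omega
      rw [e1, e2]
      simp only [decide_eq_true_iff]
    rw [key]

end Pool.Agent.Z45.OG
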