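import Pool.Agent.H620R2.Gauge.M
import Pool.Agent.H620R2.Gauge.A1

/-!
# Lazy simulation of a random oracle

`lz` runs an oracle algorithm with a table of known answers; other questions are answered by the
bits of a string, and the answers are recorded in the table. The distribution of the result is the
same for a random string and for a random oracle which agrees with the table.
-/

namespace Pool.Agent.Z45.OG

open Pool.Agent.NPC Pool.Agent.H620R2.Gauge MeasureTheory

/-- tables of answers -/
abbrev Tab : Type := List (List Bool × Bool)

/-- the entry for `q` in a table -/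
def look (τ : Tab) (q : List Bool) : Option Bool :=
  ((τ.filter (fun e => decide (e.1 = q))).head?).map (fun e => e.2)

/-- the oracles that agree with the table -/
def tabSet (τ : Tab) : Set Oracle := {A | ∀ e ∈ τ, A e.1 = e.2}

/-- no string occurs twice -/
def Good (τ : Tab) : Prop := (τ.map Prod.fst).Nodup

theorem look_some {τ : Tab} {q : List Bool} {b : Bool} (h : look τ q = some b) :
    (q, b) ∈ τ := by
  unfold look at h
  rw [Option.map_eq_some_iff] at h
  obtain ⟨e, he, rfl⟩ := h
  have h1 := List.mem_of_head? he
  rw [List.mem_filter] at h1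
  have h2 := of_decide_eq_true h1.2
  rw [← h2]
  exact h1.1

theorem look_none {τ : Tab} {q : List Bool} (h : look τ q = none) :
    q ∉ τ.map Prod.fst := by
  unfold look at h
  rw [Option.map_eq_none_iff, List.head?_eq_none_iff, List.filter_eq_nil_iff] at h
  intro hq
  obtain ⟨e, he, rfl⟩ := List.mem_map.1 hq
  exact h e he (by simp)

theorem good_cons {τ : Tab} (hτ : Good τ) {q : List Bool} (h : look τ q = none) (b : Bool) :
    Good ((q, b) :: τ) := by
  unfold Good
  rw [List.map_cons, List.nodup_cons]
  exact ⟨look_none h, hτ⟩

theorem good_nil : Good [] := List.nodup_nil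

/-- the run with a table and with a string of further answers -/
def lz (M : Alg) (x : List Bool) : ℕ → List Bool → Tab → List Bool → Option (List Bool)
  | 0, _, _, _ => none
  | n + 1, a, τ, r =>
    match M.D (pairBits x a) with
    | [] => some []
    | true :: z => some z
    | false :: q =>
      match look τ q with
      | some b => lz M x n (a ++ [b]) τ r
      | none => lz M x n (a ++ [r.headD false]) ((q, r.headD false) :: τ) r.tail

open Classical in
/-- the indicator of a property of results -/
noncomputable def ind (Z : Option (List Bool) → Prop) (o : Option (List Bool)) : ℝ :=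
  if Z o then 1 else 0

/-- the probability that the result has the property `Z` -/
noncomputable def acc (M : Alg) (Z : Option (List Bool) → Prop) (x : List Bool) :
    ℕ → List Bool → Tab → ℝ
  | 0, _, _ => ind Z none
  | n + 1, a, τ =>
    match M.D (pairBits x a) with
    | [] => ind Z (some [])
    | true :: z => ind Z (some z)
    | false :: q =>
      match look τ q with
      | some b => acc M Z x n (a ++ [b]) τ
      | none => (acc M Z x n (a ++ [false]) ((q, false) :: τ) +
          acc M Z x n (a ++ [true]) ((q, true) :: τ)) / 2

theorem ind_nonneg (Z : Option (List Bool) → Prop) (o : Option (List Bool)) : 0 ≤ ind Z o := by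
  unfold ind; split_ifs <;> norm_num

theorem acc_nonneg (M : Alg) (Z : Option (List Bool) → Prop) (x : List Bool) :
    ∀ (n : ℕ) (a : List Bool) (τ : Tab), 0 ≤ acc M Z x n a τ := by
  intro n
  induction n with
  | zero => intro a τ; exact ind_nonneg _ _
  | succ n ih =>
    intro a τ
    rw [acc]
    split
    · exact ind_nonneg _ _
    · exact ind_nonneg _ _
    · split
      · exact ih _ _
      · exact div_nonneg (add_nonneg (ih _ _) (ih _ _)) (by norm_num)

/-! ### the measure -/

theorem measurable_coord (q : List Bool) (b : Bool) : MeasurableSet {A : Oracle | A q = b} := by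
  have h : Measurable (fun A : Oracle => A q) := measurable_pi_apply q
  exact h (MeasurableSet.singleton b)

theorem tabSet_nil : tabSet [] = Set.univ := by
  ext A; simp [tabSet]

theorem tabSet_cons (e : List Bool × Bool) (τ : Tab) :
    tabSet (e :: τ) = tabSet τ ∩ {A : Oracle | A e.1 = e.2} := by
  ext A
  simp only [tabSet, List.mem_cons, forall_eq_or_imp, Set.mem_inter_iff, Set.mem_ofPred_eq]
  exact and_comm

theorem measure_tabSet {τ : Tab} (hτ : Good τ) : ranO (tabSet τ) = (2⁻¹ : ENNReal) ^ τ.length := by
  classical
  set s : Finset (List Bool) := (τ.map Prod.fst).toFinset with hs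
  set t : List Bool → Set Bool := fun y => {(look τ y).getD false} with ht
  have hlook : ∀ e ∈ τ, look τ e.1 = some e.2 := by
    intro e he
    cases h : look τ e.1 with
    | none => exact absurd (List.mem_map_of_mem he) (look_none h)
    | some b =>
      have h1 := look_some h
      have h2 : (e.1, b) = e := by
        have := List.inj_on_of_nodup_map hτ h1 he rfl
        exact this
      rw [← h2]
  have h0 : tabSet τ = Set.pi (s : Set (List Bool)) t := by
    ext A
    rw [Set.mem_pi]
    constructor
    · intro hA y hy
      rw [Finset.mem_coe, hs, List.mem_toFinset, List.mem_map] at hy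
      obtain ⟨e, he, rfl⟩ := hy
      rw [ht]
      simp only [Set.mem_singleton_iff]
      rw [hlook e he]
      exact hA e he
    · intro hA e he
      have h1 := hA e.1 (by
        rw [Finset.mem_coe, hs, List.mem_toFinset]
        exact List.mem_map_of_mem he)
      rw [ht] at h1
      simp only [Set.mem_singleton_iff] at h1
      rw [hlook e he] at h1
      exact h1
  rw [h0]
  have h2 : ranO (Set.pi (s : Set (List Bool)) t) = ∏ y ∈ s, coinM (t y) :=
    Measure.infinitePi_pi (fun _ : List Bool => coinM) (s := s) (t := t)
      (fun i _ => MeasurableSet.singleton _)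
  rw [h2, Finset.prod_congr rfl (fun y _ => coinM_singleton _), Finset.prod_const]
  congr 1
  rw [hs, List.toFinset_card_of_nodup hτ, List.length_map]

theorem real_tabSet {τ : Tab} (hτ : Good τ) : ranO.real (tabSet τ) = (1 / 2 : ℝ) ^ τ.length := by
  rw [measureReal_def, measure_tabSet hτ, ENNReal.toReal_pow, ENNReal.toReal_inv]
  simp

/-- splitting according to one bit -/
theorem real_split (S : Set Oracle) (q : List Bool) :
    ranO.real S = ranO.real (S ∩ {A : Oracle | A q = false}) +
      ranO.real (S ∩ {A : Oracle | A q = true}) := by
  have h := measureReal_inter_add_sdiff (μ := ranO) (s := S) (measurable_coord q false)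
  have h2 : S \ {A : Oracle | A q = false} = S ∩ {A : Oracle | A q = true} := by
    ext A
    simp
  rw [← h, h2]

theorem real_run (M : Alg) (Z : Option (List Bool) → Prop) (x : List Bool) :
    ∀ (n : ℕ) (a : List Bool) (τ : Tab), Good τ →
      ranO.real (tabSet τ ∩ {A : Oracle | Z (M.run A x n a)}) =
        acc M Z x n a τ * (1 / 2) ^ τ.length := by
  have leaf : ∀ (o : Option (List Bool)) (τ : Tab), Good τ →
      ranO.real (tabSet τ ∩ {_A : Oracle | Z o}) = ind Z o * (1 / 2) ^ τ.length := by
    intro o τ hτ
    unfold ind
    by_cases h : Z o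
    · simp only [h, if_true, one_mul]
      have : tabSet τ ∩ {_A : Oracle | True} = tabSet τ := by ext A; simp
      rw [this, real_tabSet hτ]
    · simp only [h, if_false, zero_mul]
      have : tabSet τ ∩ {_A : Oracle | False} = ∅ := by ext A; simp
      rw [this, measureReal_empty]
  intro n
  induction n with
  | zero =>
    intro a τ hτ
    exact leaf none τ hτ
  | succ n ih =>
    intro a τ hτ
    rw [acc]
    split
    · next h =>
      simp only [Alg.run, h]
      exact leaf _ τ hτ
    · next z h =>
      simp only [Alg.run, h]
      exact leaf _ τ hτ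
    · next q h =>
      simp only [Alg.run, h]
      split
      · next b hb =>
        rw [← ih (a ++ [b]) τ hτ]
        congr 1
        ext A
        simp only [Set.mem_inter_iff, Set.mem_ofPred_eq]
        constructor
        · rintro ⟨h1, h2⟩
          have h3 : A q = b := h1 _ (look_some hb)
          rw [h3] at h2
          exact ⟨h1, h2⟩
        · rintro ⟨h1, h2⟩
          have h3 : A q = b := h1 _ (look_some hb)
          rw [h3]
          exact ⟨h1, h2⟩
      · next hb =>
        rw [real_split _ q]
        have h1 : ∀ b : Bool, tabSet τ ∩ {A : Oracle | Z (M.run A x n (a ++ [A q]))} ∩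
            {A : Oracle | A q = b} = tabSet ((q, b) :: τ) ∩
              {A : Oracle | Z (M.run A x n (a ++ [b]))} := by
          intro b
          rw [tabSet_cons]
          ext A
          simp only [Set.mem_inter_iff, Set.mem_ofPred_eq]
          constructor
          · rintro ⟨⟨h1, h2⟩, h3⟩
            rw [h3] at h2
            exact ⟨⟨h1, h3⟩, h2⟩
          · rintro ⟨⟨h1, h3⟩, h2⟩
            rw [h3]
            exact ⟨⟨h1, h2⟩, rfl⟩
        rw [h1, h1, ih _ _ (good_cons hτ hb false), ih _ _ (good_cons hτ hb true)]
        simp only [List.length_cons, pow_succ]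
        ring

/-- the strings in the table have length at most `B` -/
def Short (B : ℕ) (τ : Tab) : Prop := ∀ e ∈ τ, e.1.length ≤ B

theorem greedy_step (M : Alg) (Z : Option (List Bool) → Prop) (x : List Bool) (G : Set Oracle)
    (R : ℝ) (B : ℕ) (hB : ∀ a : List Bool, a.length ≤ M.p.eval x.length →
      (M.D (pairBits x a)).length ≤ B) : ∀ (n : ℕ) (a : List Bool) (τ : Tab), Good τ → Short B τ →
      a.length + n ≤ M.p.eval x.length →
      (∀ A ∈ G ∩ tabSet τ, Z (M.run A x n a)) →
      (∀ τ' : Tab, Good τ' → Short B τ' → τ'.length ≤ τ.length + n →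
        ranO.real (G ∩ tabSet τ') * 2 ^ τ'.length ≤ R) →
      ranO.real (G ∩ tabSet τ) * 2 ^ τ.length ≤ acc M Z x n a τ * R := by
  have leaf : ∀ (o : Option (List Bool)) (τ : Tab), (∀ A ∈ G ∩ tabSet τ, Z o) →
      ranO.real (G ∩ tabSet τ) * 2 ^ τ.length ≤ R →
      ranO.real (G ∩ tabSet τ) * 2 ^ τ.length ≤ ind Z o * R := by
    intro o τ h1 h2
    unfold ind
    by_cases h : Z o
    · rw [if_pos h, one_mul]; exact h2
    · rw [if_neg h, zero_mul]
      have : G ∩ tabSet τ = ∅ := by
        rw [Set.eq_empty_iff_forall_notMem]
        intro A hA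
        exact h (h1 A hA)
      rw [this, measureReal_empty, zero_mul]
  intro n
  induction n with
  | zero =>
    intro a τ hτ hs ha h1 h2
    exact leaf none τ (fun A hA => h1 A hA) (h2 τ hτ hs le_rfl)
  | succ n ih =>
    intro a τ hτ hs ha h1 h2
    rw [acc]
    split
    · next h =>
      refine leaf _ τ (fun A hA => ?_) (h2 τ hτ hs (by omega))
      have := h1 A hA
      simpa only [Alg.run, h] using this
    · next z h =>
      refine leaf _ τ (fun A hA => ?_) (h2 τ hτ hs (by omega))
      have := h1 A hA
      simpa only [Alg.run, h] using this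
    · next q h =>
      have hq : q.length ≤ B := by
        have h3 := hB a (by omega)
        rw [h, List.length_cons] at h3
        omega
      split
      · next b hb =>
        refine ih _ _ hτ hs (by rw [List.length_append, List.length_singleton]; omega)
          (fun A hA => ?_) fun τ' hτ' hs' hl => h2 τ' hτ' hs' (by omega)
        have h3 := h1 A hA
        simp only [Alg.run, h] at h3
        have h4 : A q = b := hA.2 _ (look_some hb)
        rwa [h4] at h3
      · next hb =>
        have key : ∀ b : Bool, ranO.real (G ∩ tabSet ((q, b) :: τ)) * 2 ^ (τ.length + 1) ≤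
            acc M Z x n (a ++ [b]) ((q, b) :: τ) * R := by
          intro b
          have hs2 : Short B ((q, b) :: τ) := by
            intro e he
            rcases List.mem_cons.1 he with rfl | he
            · exact hq
            · exact hs e he
          refine ih (a ++ [b]) ((q, b) :: τ) (good_cons hτ hb b) hs2
            (by rw [List.length_append, List.length_singleton]; omega) (fun A hA => ?_)
            fun τ' hτ' hs' hl => h2 τ' hτ' hs' (by rw [List.length_cons] at hl; omega)
          rw [tabSet_cons] at hA
          have h3 := h1 A ⟨hA.1, hA.2.1⟩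
          simp only [Alg.run, h] at h3
          have h4 : A q = b := hA.2.2
          rwa [h4] at h3
        have h5 : ranO.real (G ∩ tabSet τ) = ranO.real (G ∩ tabSet ((q, false) :: τ)) +
            ranO.real (G ∩ tabSet ((q, true) :: τ)) := by
          rw [real_split _ q, tabSet_cons, tabSet_cons, Set.inter_assoc, Set.inter_assoc]
        have h6 := key false
        have h7 := key true
        rw [h5]
        rw [pow_succ] at h6 h7
        linarith

/-- Some table of moderate size determines the results with high probability. -/
theorem greedy (M : Alg) (Z : List Bool → Option (List Bool) → Prop) (n B K : ℕ)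
    (hB : ∀ x a : List Bool, x.length = n → a.length ≤ M.p.eval x.length →
      (M.D (pairBits x a)).length ≤ B)
    (hK : 1 < ranO.real {A | ∀ x, x.length ≤ n → Z x (M.out A x)} * (3 / 2) ^ K) :
    ∃ τ : Tab, Good τ ∧ Short B τ ∧ τ.length ≤ K * M.p.eval n ∧
      ∀ x, x.length = n → 2 / 3 ≤ acc M (Z x) x (M.p.eval x.length) [] τ := by
  set G : Set Oracle := {A | ∀ x, x.length ≤ n → Z x (M.out A x)} with hG
  set t := M.p.eval n with ht
  set P : ℕ → Prop := fun k => ∃ τ : Tab, Good τ ∧ Short B τ ∧ τ.length ≤ k * t ∧
    ranO.real G * (3 / 2) ^ k ≤ ranO.real (G ∩ tabSet τ) * 2 ^ τ.length with hP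
  have hpos : 0 < ranO.real G := by
    by_contra hcon
    have h1 : ranO.real G = 0 := le_antisymm (not_lt.1 hcon) measureReal_nonneg
    rw [h1] at hK
    norm_num at hK
  have h0 : P 0 := ⟨[], good_nil, fun e he => by simp at he, by simp, by
    rw [tabSet_nil, Set.inter_univ]; simp⟩
  have h1 : ¬ P K := by
    rintro ⟨τ, hτ, _, _, hle⟩
    have h2 : ranO.real (G ∩ tabSet τ) ≤ (1 / 2 : ℝ) ^ τ.length := by
      rw [← real_tabSet hτ]
      exact measureReal_mono Set.inter_subset_right
    have h3 : ranO.real (G ∩ tabSet τ) * 2 ^ τ.length ≤ 1 := by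
      calc ranO.real (G ∩ tabSet τ) * 2 ^ τ.length ≤ (1 / 2 : ℝ) ^ τ.length * 2 ^ τ.length :=
            mul_le_mul_of_nonneg_right h2 (by positivity)
        _ = 1 := by rw [← mul_pow]; norm_num
    linarith
  obtain ⟨k, hk, hk'⟩ : ∃ k, k < K ∧ P k ∧ ¬ P (k + 1) := by
    by_contra hcon
    push Not at hcon
    have : ∀ k ≤ K, P k := by
      intro k
      induction k with
      | zero => exact fun _ => h0
      | succ k ih => exact fun hk => hcon k (by omega) (ih (by omega))
    exact h1 (this K le_rfl)
  obtain ⟨⟨τ, hτ, hs, hl, hle⟩, hnot⟩ := hk'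
  refine ⟨τ, hτ, hs, hl.trans (Nat.mul_le_mul_right _ hk.le), fun x hx => ?_⟩
  have h5 := greedy_step M (Z x) x G (ranO.real G * (3 / 2) ^ (k + 1)) B
    (fun a ha => hB x a hx ha) (M.p.eval x.length) [] τ hτ hs (by simp)
    (fun A hA => hA.1 x hx.le) (fun τ' hτ' hs' hl' => by
      by_contra hcon
      rw [not_le] at hcon
      refine hnot ⟨τ', hτ', hs', ?_, hcon.le⟩
      rw [hx] at hl'
      have : (k + 1) * t = k * t + t := by ring
      omega)
  have h6 := hle.trans h5
  have h7 : ranO.real G * (3 / 2) ^ k * 1 ≤
      ranO.real G * (3 / 2) ^ k * (acc M (Z x) x (M.p.eval x.length) [] τ * (3 / 2)) := by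
    calc ranO.real G * (3 / 2) ^ k * 1 = ranO.real G * (3 / 2) ^ k := mul_one _
      _ ≤ _ := h6
      _ = _ := by rw [pow_succ]; ring
  have h8 := le_of_mul_le_mul_left h7 (by positivity)
  linarith

/-! ### strings of answers -/

theorem count_lz (M : Alg) (Z : Option (List Bool) → Prop) (x : List Bool) :
    ∀ (n : ℕ) (a : List Bool) (τ : Tab) (t : ℕ), n ≤ t →
      (Nat.card {r : Fin t → Bool // Z (lz M x n a τ (List.ofFn r))} : ℝ) =
        acc M Z x n a τ * 2 ^ t := by
  have leaf : ∀ (o : Option (List Bool)) (t : ℕ),
      (Nat.card {_r : Fin t → Bool // Z o} : ℝ) = ind Z o * 2 ^ t := by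
    intro o t
    unfold ind
    by_cases h : Z o
    · rw [if_pos h, one_mul]
      have h1 : Nat.card {_r : Fin t → Bool // Z o} = 2 ^ t := by
        rw [Nat.card_congr (Equiv.subtypeUnivEquiv fun _ => h)]
        simp
      rw [h1]
      norm_num
    · rw [if_neg h, zero_mul]
      have : IsEmpty {_r : Fin t → Bool // Z o} := ⟨fun r => h r.2⟩
      rw [Nat.card_of_isEmpty, Nat.cast_zero]
  intro n
  induction n with
  | zero => intro a τ t _; exact leaf none t
  | succ n ih =>
    intro a τ t ht
    rw [acc]
    split
    · next h =>
      simp only [lz, h]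
      exact leaf _ t
    · next z h =>
      simp only [lz, h]
      exact leaf _ t
    · next q h =>
      split
      · next b hb =>
        simp only [lz, h, hb]
        exact ih _ _ t (by omega)
      · next hb =>
        simp only [lz, h, hb]
        obtain ⟨t, rfl⟩ : ∃ t', t = t' + 1 := ⟨t - 1, by omega⟩
        have e1 : ∀ r : Fin (t + 1) → Bool, (List.ofFn r).headD false = r 0 := by
          intro r; simp [List.ofFn_succ]
        have e2 : ∀ r : Fin (t + 1) → Bool, (List.ofFn r).tail = List.ofFn (Fin.tail r) := by
          intro r; simp [List.ofFn_succ, Fin.tail_def]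
        let P : Bool → (Fin t → Bool) → Prop := fun b r =>
          Z (lz M x n (a ++ [b]) ((q, b) :: τ) (List.ofFn r))
        have e3 : Nat.card {r : Fin (t + 1) → Bool // Z (lz M x n
            (a ++ [(List.ofFn r).headD false]) ((q, (List.ofFn r).headD false) :: τ)
            (List.ofFn r).tail)} = Nat.card {p : Bool × (Fin t → Bool) // P p.1 p.2} := by
          refine Nat.card_congr (Equiv.subtypeEquiv (Fin.consEquiv (fun _ => Bool)).symm ?_)
          intro r
          rw [e1, e2]
          exact Iff.rfl
        have e4 : Nat.card {p : Bool × (Fin t → Bool) // P p.1 p.2} =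
            Nat.card {r : Fin t → Bool // P false r} + Nat.card {r : Fin t → Bool // P true r} := by
          classical
          rw [Nat.card_eq_fintype_card, Nat.card_eq_fintype_card, Nat.card_eq_fintype_card,
            Fintype.card_subtype, Fintype.card_subtype, Fintype.card_subtype]
          simp only [Finset.card_filter]
          rw [Fintype.sum_prod_type, Fintype.sum_bool, add_comm]
        rw [e3, e4]
        push_cast
        rw [ih (a ++ [false]) ((q, false) :: τ) t (by omega),
          ih (a ++ [true]) ((q, true) :: τ) t (by omega), pow_succ]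
        ring

end Pool.Agent.Z45.OG
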