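import Pool.Agent.Z45.OG.Lazy
import Pool.Agent.H622R2.CoNP

/-!
# The lazy simulation is computable in polynomial time
-/

namespace Pool.Agent.Z45.OG

open Pool.Agent.NPC Pool.Agent.H620R2.Gauge

/-- the states: answers, table, further bits, result -/
abbrev LSt : Type := List Bool × Tab × List Bool × Option (List Bool)

/-- one round -/
def lrnd (M : Alg) (x : List Bool) (s : LSt) : LSt :=
  match s.2.2.2 with
  | some _ => s
  | none =>
    match M.D (pairBits x s.1) with
    | [] => (s.1, s.2.1, s.2.2.1, some [])
    | b :: q => bif b then (s.1, s.2.1, s.2.2.1, some q) else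
      match look s.2.1 q with
      | some c => (s.1 ++ [c], s.2.1, s.2.2.1, none)
      | none => (s.1 ++ [s.2.2.1.headD false], (q, s.2.2.1.headD false) :: s.2.1,
          s.2.2.1.tail, none)

theorem lrnd_some (M : Alg) (x a : List Bool) (τ : Tab) (r z : List Bool) (n : ℕ) :
    (lrnd M x)^[n] (a, τ, r, some z) = (a, τ, r, some z) := by
  induction n with
  | zero => rfl
  | succ n ih =>
    rw [Function.iterate_succ_apply]
    exact ih

theorem lz_eq (M : Alg) (x : List Bool) : ∀ (n : ℕ) (a : List Bool) (τ : Tab) (r : List Bool),
    lz M x n a τ r = ((lrnd M x)^[n] (a, τ, r, none)).2.2.2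
  | 0, _, _, _ => rfl
  | n + 1, a, τ, r => by
    rw [lz, Function.iterate_succ_apply]
    cases h : M.D (pairBits x a) with
    | nil =>
      have : lrnd M x (a, τ, r, none) = (a, τ, r, some []) := by simp [lrnd, h]
      rw [this, lrnd_some]
    | cons b q =>
      cases b with
      | true =>
        have : lrnd M x (a, τ, r, none) = (a, τ, r, some q) := by simp [lrnd, h]
        rw [this, lrnd_some]
      | false =>
        cases hl : look τ q with
        | some c =>
          have : lrnd M x (a, τ, r, none) = (a ++ [c], τ, r, none) := by simp [lrnd, h, hl]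
          rw [this]
          simp only [hl]
          exact lz_eq M x n _ _ _
        | none =>
          have : lrnd M x (a, τ, r, none) = (a ++ [r.headD false], (q, r.headD false) :: τ,
              r.tail, none) := by simp [lrnd, h, hl]
          rw [this]
          simp only [hl]
          exact lz_eq M x n _ _ _

theorem poly_look {α : Type} [TEnc α] {τ : α → Tab} {q : α → List Bool} (hτ : Poly τ)
    (hq : Poly q) : Poly (fun a => look (τ a) (q a)) := by
  have h1 : Poly (fun a => (τ a).filter (fun e => decide (e.1 = q a))) :=
    Poly.filter (p := fun a e => decide (e.1 = q a)) hτ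
      (Poly.decide_eq (Poly.fst (Poly.snd Poly.id)) (hq.comp (Poly.fst Poly.id)))
  refine (Poly.optCases (o := fun a => ((τ a).filter (fun e => decide (e.1 = q a))).head?)
    (g := fun _ => (none : Option Bool)) (h := fun _ e => some e.2) (Poly.head? h1)
    (NPC.Poly.const _) (Poly.some (Poly.snd (Poly.snd Poly.id)))).congr fun a => ?_
  unfold look
  cases ((τ a).filter (fun e => decide (e.1 = q a))).head? <;> rfl

theorem poly_headD {α : Type} [TEnc α] {r : α → List Bool} (hr : Poly r) :
    Poly (fun a => (r a).headD false) :=
  (Poly.head?_getD hr false).congr fun a => by cases r a <;> rfl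

theorem poly_lrnd {α : Type} [TEnc α] (M : Alg) {x : α → List Bool} (hx : Poly x) :
    Poly (fun p : α × LSt => lrnd M (x p.1) p.2) := by
  have hD := H622R2.poly_of_polyTime M.poly
  have h1 : Poly (fun p : α × LSt => p.2.1) := Poly.fst (Poly.snd Poly.id)
  have h2 : Poly (fun p : α × LSt => p.2.2.1) := Poly.fst (Poly.snd (Poly.snd Poly.id))
  have h3 : Poly (fun p : α × LSt => p.2.2.2.1) :=
    Poly.fst (Poly.snd (Poly.snd (Poly.snd Poly.id)))
  have h4 : Poly (fun p : α × LSt => p.2.2.2.2) :=
    Poly.snd (Poly.snd (Poly.snd (Poly.snd Poly.id)))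
  have h5 : Poly (fun p : α × LSt => M.D (pairBits (x p.1) p.2.1)) :=
    hD.comp (H622R2.poly_pairBits (hx.comp (Poly.fst Poly.id)) h1)
  have c0 : Poly (fun p : (α × LSt) × Bool × List Bool => p.1) := Poly.fst Poly.id
  have cq : Poly (fun p : (α × LSt) × Bool × List Bool => p.2.2) := Poly.snd (Poly.snd Poly.id)
  have h6 : Poly (fun p : (α × LSt) × Bool × List Bool =>
      match look p.1.2.2.1 p.2.2 with
      | some c => ((p.1.2.1 ++ [c], p.1.2.2.1, p.1.2.2.2.1, none) : LSt)
      | none => (p.1.2.1 ++ [p.1.2.2.2.1.headD false],
          (p.2.2, p.1.2.2.2.1.headD false) :: p.1.2.2.1, p.1.2.2.2.1.tail, none)) := by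
    refine (Poly.optCases (o := fun p : (α × LSt) × Bool × List Bool => look p.1.2.2.1 p.2.2)
      (g := fun p => ((p.1.2.1 ++ [p.1.2.2.2.1.headD false],
          (p.2.2, p.1.2.2.2.1.headD false) :: p.1.2.2.1, p.1.2.2.2.1.tail, none) : LSt))
      (h := fun p c => ((p.1.2.1 ++ [c], p.1.2.2.1, p.1.2.2.2.1, none) : LSt))
      (poly_look (h2.comp c0) cq) ?_ ?_).congr ?_
    · exact Poly.pair (Poly.append (h1.comp c0) (Poly.cons (poly_headD (h3.comp c0))
        (NPC.Poly.const []))) (Poly.pair (Poly.cons (Poly.pair cq (poly_headD (h3.comp c0)))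
          (h2.comp c0)) (Poly.pair (Poly.tail (h3.comp c0)) (NPC.Poly.const none)))
    · have d0 : Poly (fun p : ((α × LSt) × Bool × List Bool) × Bool => p.1.1) :=
        c0.comp (Poly.fst Poly.id)
      exact Poly.pair (Poly.append (h1.comp d0) (Poly.cons (Poly.snd Poly.id)
        (NPC.Poly.const []))) (Poly.pair (h2.comp d0) (Poly.pair (h3.comp d0)
          (NPC.Poly.const none)))
    · intro p
      cases look p.1.2.2.1 p.2.2 <;> rfl
  have h7 : Poly (fun p : (α × LSt) × Bool × List Bool =>
      bif p.2.1 then ((p.1.2.1, p.1.2.2.1, p.1.2.2.2.1, some p.2.2) : LSt) else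
      match look p.1.2.2.1 p.2.2 with
      | some c => ((p.1.2.1 ++ [c], p.1.2.2.1, p.1.2.2.2.1, none) : LSt)
      | none => (p.1.2.1 ++ [p.1.2.2.2.1.headD false],
          (p.2.2, p.1.2.2.2.1.headD false) :: p.1.2.2.1, p.1.2.2.2.1.tail, none)) := by
    refine Poly.cond (Poly.fst (Poly.snd Poly.id)) ?_ h6
    exact Poly.pair (h1.comp c0) (Poly.pair (h2.comp c0) (Poly.pair (h3.comp c0)
      (Poly.some cq)))
  have h8 := Poly.listCases (β := Bool)
    (g := fun p : α × LSt => ((p.2.1, p.2.2.1, p.2.2.2.1, some []) : LSt))
    (h := fun (p : α × LSt) (b : Bool) (q : List Bool) =>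
      bif b then ((p.2.1, p.2.2.1, p.2.2.2.1, some q) : LSt) else
      match look p.2.2.1 q with
      | some c => ((p.2.1 ++ [c], p.2.2.1, p.2.2.2.1, none) : LSt)
      | none => (p.2.1 ++ [p.2.2.2.1.headD false],
          (q, p.2.2.2.1.headD false) :: p.2.2.1, p.2.2.2.1.tail, none)) h5
    (Poly.pair h1 (Poly.pair h2 (Poly.pair h3 (NPC.Poly.const (some []))))) h7
  refine (Poly.optCases (o := fun p : α × LSt => p.2.2.2.2) (h := fun p _ => p.2) h4 h8
    (Poly.snd (Poly.fst Poly.id))).congr ?_
  rintro ⟨a, s, τ, r, o⟩
  cases o with
  | none =>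
    simp only [lrnd]
    cases M.D (pairBits (x a) s) <;> rfl
  | some z => rfl

theorem sz_tail_le (l : List Bool) : sz l.tail ≤ sz l := by
  cases l with
  | nil => simp
  | cons b l => simp; omega

theorem poly_lz {α : Type} [TEnc α] (M : Alg) {x r : α → List Bool} {τ : α → Tab} (hx : Poly x)
    (hτ : Poly τ) (hr : Poly r) :
    Poly (fun a => lz M (x a) (M.p.eval (x a).length) [] (τ a) (r a)) := by
  have hD := H622R2.poly_of_polyTime M.poly
  obtain ⟨q, hq⟩ := hD.sz_le
  obtain ⟨rx, hrx⟩ := hx.sz_le
  obtain ⟨rt, hrt⟩ := hτ.sz_le
  obtain ⟨rr, hrr⟩ := hr.sz_le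
  have hn : UPoly (fun a => M.p.eval (x a).length) := UPoly.eval (UPoly.length hx) _
  set B : Polynomial ℕ := q.comp (Polynomial.C 8 * rx + Polynomial.C 8 * M.p.comp rx +
      Polynomial.C 8) with hB
  have hfold : Poly (fun a => (lrnd M (x a))^[(List.replicate (M.p.eval (x a).length) ()).length]
      (([], τ a, r a, none) : LSt)) := by
    refine Poly.iterLen (F := fun a => lrnd M (x a)) hn
      (Poly.pair (NPC.Poly.const _) (Poly.pair hτ (Poly.pair hr (NPC.Poly.const _))))
      (poly_lrnd M hx)
      (Polynomial.C 4 * M.p.comp rx + rt + M.p.comp rx * (B + Polynomial.C 6) + rr + B +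
        Polynomial.C 8) ?_
    intro a k hk
    rw [List.length_replicate] at hk
    have hxl : (x a).length ≤ rx.eval (sz a) := (length_lt_sz (x a)).le.trans (hrx a)
    have hpe : M.p.eval (x a).length ≤ M.p.eval (rx.eval (sz a)) := eval_mono _ hxl
    have key : ∀ k, k ≤ M.p.eval (x a).length →
        ((lrnd M (x a))^[k] ([], τ a, r a, none)).1.length ≤ k ∧
        sz ((lrnd M (x a))^[k] ([], τ a, r a, none)).2.1 ≤ sz (τ a) + k * (B.eval (sz a) + 6) ∧
        sz ((lrnd M (x a))^[k] ([], τ a, r a, none)).2.2.1 ≤ sz (r a) ∧
        ∀ z, ((lrnd M (x a))^[k] ([], τ a, r a, none)).2.2.2 = some z →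
          sz z ≤ B.eval (sz a) := by
      intro k
      induction k with
      | zero => intro _; exact ⟨le_rfl, by simp, le_rfl, fun z hz => by simp at hz⟩
      | succ k ih =>
        intro hk
        have ih := ih (by omega)
        rw [Function.iterate_succ_apply']
        revert ih
        generalize (lrnd M (x a))^[k] ([], τ a, r a, none) = st
        obtain ⟨s, τ', r', o⟩ := st
        rintro ⟨ih1, ih2, ih3, ih4⟩
        dsimp only at ih1 ih2 ih3 ih4
        have e0 : (k + 1) * (B.eval (sz a) + 6) = k * (B.eval (sz a) + 6) +
            (B.eval (sz a) + 6) := by ring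
        cases o with
        | some z =>
          have : lrnd M (x a) (s, τ', r', some z) = (s, τ', r', some z) := rfl
          rw [this]
          refine ⟨ih1.trans (Nat.le_succ k), ?_, ih3, fun z' hz' => ih4 z' hz'⟩
          dsimp only
          omega
        | none =>
          have e1 : sz (M.D (pairBits (x a) s)) ≤ B.eval (sz a) := by
            refine (hq _).trans ?_
            rw [hB, Polynomial.eval_comp]
            apply eval_mono
            refine (sz_listBool_le _).trans ?_
            rw [length_pairBits]
            simp only [Polynomial.eval_add, Polynomial.eval_mul, Polynomial.eval_C,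
              Polynomial.eval_comp]
            omega
          cases h : M.D (pairBits (x a) s) with
          | nil =>
            rw [h] at e1
            have : lrnd M (x a) (s, τ', r', none) = (s, τ', r', some []) := by simp [lrnd, h]
            rw [this]
            refine ⟨ih1.trans (Nat.le_succ k), ?_, ih3, fun z hz => ?_⟩
            · dsimp only
              omega
            · simp only [Option.some.injEq] at hz
              rw [← hz]; exact e1
          | cons b w =>
            rw [h] at e1
            have e2 : sz w ≤ sz (b :: w) := by simp; omega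
            cases b with
            | true =>
              have : lrnd M (x a) (s, τ', r', none) = (s, τ', r', some w) := by simp [lrnd, h]
              rw [this]
              refine ⟨ih1.trans (Nat.le_succ k), ?_, ih3, fun z hz => ?_⟩
              · dsimp only
                omega
              · simp only [Option.some.injEq] at hz
                rw [← hz]; exact e2.trans e1
            | false =>
              cases hl : look τ' w with
              | some c =>
                have : lrnd M (x a) (s, τ', r', none) = (s ++ [c], τ', r', none) := by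
                  simp [lrnd, h, hl]
                rw [this]
                refine ⟨by simpa using ih1, ?_, ih3, fun z hz => by simp at hz⟩
                dsimp only
                omega
              | none =>
                have : lrnd M (x a) (s, τ', r', none) = (s ++ [r'.headD false],
                    (w, r'.headD false) :: τ', r'.tail, none) := by simp [lrnd, h, hl]
                rw [this]
                refine ⟨by simpa using ih1, ?_, (sz_tail_le r').trans ih3,
                  fun z hz => by simp at hz⟩
                dsimp only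
                rw [sz_list_cons, sz_pair]
                have e3 := sz_bool_le (r'.headD false)
                omega
    obtain ⟨k1, k2, k3, k4⟩ := key k hk
    rcases hst : (lrnd M (x a))^[k] ([], τ a, r a, none) with ⟨s, τ', r', o⟩
    rw [hst] at k1 k2 k3 k4
    simp only at k1 k2 k3 k4
    have e1 : sz s ≤ 4 * k + 1 := (sz_listBool_le s).trans (by omega)
    have e2 : sz o ≤ B.eval (sz a) + 2 := by
      cases o with
      | none => simp
      | some z => rw [sz_some]; have := k4 z rfl; omega
    have e3 := hrt a
    have e4 := hrr a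
    have e5 : k * (B.eval (sz a) + 6) ≤ M.p.eval (rx.eval (sz a)) * (B.eval (sz a) + 6) :=
      Nat.mul_le_mul_right _ (by omega)
    rw [sz_pair, sz_pair, sz_pair]
    simp only [Polynomial.eval_add, Polynomial.eval_mul, Polynomial.eval_C, Polynomial.eval_comp]
    omega
  refine (Poly.snd (Poly.snd (Poly.snd hfold))).congr fun a => ?_
  rw [List.length_replicate, lz_eq]

end Pool.Agent.Z45.OG
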