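import Pool.Agent.Z45.OG.Sat
import Pool.Agent.Z45.OG.Cat
import Pool.Agent.Z45.OG.Embed
import Pool.Agent.Z45.OG.BppA
import Pool.Agent.Z45.OG.BppB

/-!
# The oracles that help NP: all parts together
-/

namespace Pool.Agent.Z45.OG

open Pool.Agent.NPC Pool.Agent.H620R2.Gauge MeasureTheory

theorem isP_of_reduces {A : Oracle} {L K : Set (List Bool)} (h : Reduces L K) (hK : IsP A K) :
    IsP A L := by
  obtain ⟨f, hf, hfL⟩ := h
  obtain ⟨V, hV, hVK⟩ := hK
  exact ⟨_, IsFP.comp hV (IsFP.of_poly (H622R2.poly_of_polyTime hf)),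
    fun x => (hfL x).trans (hVK _)⟩

/-- the helpful oracles for NP are those for any complete language -/
theorem helpersNP_eq {K : Set (List Bool)} (hK : InNP K) (hK' : NPHard K) :
    helpersNP = helpers K := by
  ext A
  exact ⟨fun h => h K hK, fun h L hL => isP_of_reduces (hK' L hL) h⟩

theorem ppoly_iff (L : Set (List Bool)) :
    (InPpoly L ↔ ∃ c : ℝ, ¬ Null (fun N => (Real.logb 2 N) ^ c) (helpers L)) ∧
    (InPpoly L ↔ ∀ c : ℝ, 0 < c → ¬ Null (fun N => (Real.logb 2 N) ^ c) (helpers L)) := by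
  refine ⟨⟨fun h => ⟨1, nonnull_of_inPpoly h one_pos⟩, fun ⟨c, hc⟩ => inPpoly_of_nonnull hc⟩,
    ⟨fun h c hc => nonnull_of_inPpoly h hc, fun h => inPpoly_of_nonnull (h 1 one_pos)⟩⟩

theorem np_ppoly_iff :
    ((∀ L, InNP L → InPpoly L) ↔ ∃ c : ℝ, ¬ Null (fun N => (Real.logb 2 N) ^ c) helpersNP) ∧
    ((∀ L, InNP L → InPpoly L) ↔
      ∀ c : ℝ, 0 < c → ¬ Null (fun N => (Real.logb 2 N) ^ c) helpersNP) := by
  obtain ⟨K, hK, hK'⟩ := exists_complete
  have h1 : (∀ L, InNP L → InPpoly L) →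
      ∀ c : ℝ, 0 < c → ¬ Null (fun N => (Real.logb 2 N) ^ c) helpersNP := by
    intro h c hc
    rw [helpersNP_eq hK hK']
    exact nonnull_of_inPpoly (h K hK) hc
  have h2 : (∃ c : ℝ, ¬ Null (fun N => (Real.logb 2 N) ^ c) helpersNP) →
      ∀ L, InNP L → InPpoly L := by
    rintro ⟨c, hc⟩ L hL
    exact inPpoly_of_nonnull (c := c) fun h => hc (h.mono fun A hA => hA L hL)
  exact ⟨⟨fun h => ⟨1, h1 h 1 one_pos⟩, h2⟩, ⟨h1, fun h => h2 ⟨1, h 1 one_pos⟩⟩⟩

theorem np_bpp_iff :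
    ((∀ L, InNP L → InBPP L) ↔
      ∃ c : ℝ, ¬ Null (fun N => c * Real.logb 2 (Real.logb 2 N)) helpersNP) ∧
    ((∀ L, InNP L → InBPP L) ↔ ∀ᵐ A ∂ranO, A ∈ helpersNP) := by
  obtain ⟨K, hK, hK'⟩ := exists_complete
  have h1 : (∀ L, InNP L → InBPP L) → ∀ᵐ A ∂ranO, A ∈ helpersNP := by
    intro h
    rw [helpersNP_eq hK hK', ae_iff]
    exact ae_helpers (h K hK)
  have h2 : (∃ c : ℝ, ¬ Null (fun N => c * Real.logb 2 (Real.logb 2 N)) helpersNP) →
      ∀ L, InNP L → InBPP L := fun ⟨c, hc⟩ L hL => inBPP_of_nonnull hL hc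
  have h3 : (∀ᵐ A ∂ranO, A ∈ helpersNP) →
      ∃ c : ℝ, ¬ Null (fun N => c * Real.logb 2 (Real.logb 2 N)) helpersNP := by
    intro h
    refine ⟨0, not_null_of _ helpersNP ?_ (fun B => B) ∅ (fun _ _ _ => rfl) 0 ?_ _
      fun B hB => hB⟩
    · have e1 : ranO (Set.univ : Set Oracle) ≤ ranO helpersNP + ranO helpersNPᶜ := by
        rw [← Set.union_compl_self helpersNP]
        exact measure_union_le _ _
      have e2 : ranO helpersNPᶜ = 0 := by
        rw [ae_iff] at h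
        exact h
      rw [e2, add_zero, measure_univ] at e1
      exact lt_of_lt_of_le one_pos e1
    · intro N
      simp
  exact ⟨⟨fun h => h3 (h1 h), h2⟩, ⟨h1, fun h => h2 (h3 h)⟩⟩

theorem np_p_iff : (∀ L, InNP L → InP L) ↔ ¬ IsMeagre helpersNP := by
  constructor
  · intro h
    have h1 : helpersNP = Set.univ := by
      ext A
      simp only [Set.mem_univ, iff_true]
      exact fun L hL => isP_of_inP (h L hL) A
    rw [h1]
    exact not_isMeagre_univ_oracle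
  · intro h L hL
    exact inP_of_nonmeagre fun hm => h (hm.mono fun A hA => hA L hL)

end Pool.Agent.Z45.OG
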