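import Pool.Agent.Z45.OG.Lazy
import Pool.Agent.H620R2.Gauge2.Null

/-!
# From positive gauge to a lower bound for probabilities
-/

namespace Pool.Agent.Z45.OG

open Pool.Agent.NPC Pool.Agent.H620R2.Gauge MeasureTheory H568R2

open Classical in
theorem real_pre {N : ℕ} (a : Fin N → Bool) :
    ranO.real {A : Oracle | pre N A = a} = (1 / 2 : ℝ) ^ N := by
  set τ : Tab := List.ofFn (fun i : Fin N => (str i, a i)) with hτ
  have h1 : Good τ := by
    unfold Good
    rw [hτ, List.map_ofFn, List.nodup_ofFn]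
    intro i j hij
    exact Fin.ext (str_injective hij)
  have h2 : {A : Oracle | pre N A = a} = tabSet τ := by
    ext A
    simp only [Set.mem_ofPred_eq, tabSet, hτ, List.forall_mem_ofFn_iff]
    constructor
    · intro h i
      rw [← h]; rfl
    · intro h
      funext i
      exact h i
  rw [h2, real_tabSet h1, hτ, List.length_ofFn]

theorem measurable_pre {N : ℕ} (a : Fin N → Bool) : MeasurableSet {A : Oracle | pre N A = a} := by
  have h : {A : Oracle | pre N A = a} = ⋂ i : Fin N, {A : Oracle | A (str i) = a i} := by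
    ext A
    simp only [Set.mem_ofPred_eq, Set.mem_iInter]
    constructor
    · intro h i
      rw [← h]; rfl
    · intro h
      funext i
      exact h i
  rw [h]
  exact MeasurableSet.iInter fun i => measurable_coord _ _

open Classical in
theorem real_event {N : ℕ} (E : (Fin N → Bool) → Prop) :
    ranO.real {A : Oracle | E (pre N A)} =
      ((Finset.univ.filter E).card : ℝ) * 2 ^ (-(N : ℝ)) := by
  have h1 : {A : Oracle | E (pre N A)} =
      ⋃ a ∈ Finset.univ.filter E, {A : Oracle | pre N A = a} := by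
    ext A
    simp
  rw [h1, measureReal_biUnion_finset]
  · simp only [real_pre]
    rw [Finset.sum_const, nsmul_eq_mul, Real.rpow_neg (by norm_num), Real.rpow_natCast,
      one_div, inv_pow]
  · intro a _ b _ hab
    rw [Function.onFun, Set.disjoint_left]
    intro A hA hB
    exact hab (hA.symm.trans hB)
  · intro a _
    exact measurable_pre a

theorem nonnull_lower {f : ℕ → ℝ} {X : Set Oracle} (h : ¬ Null f X) : ∃ δ : ℝ, 0 < δ ∧
    ∀ N : ℕ, δ ≤ ranO.real {A | ∃ A' ∈ X, pre N A' = pre N A} * 2 ^ (f N) := by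
  classical
  unfold Null at h
  push Not at h
  obtain ⟨δ, hδ, h⟩ := h
  refine ⟨δ, hδ, fun N => ?_⟩
  by_contra hcon
  rw [not_le] at hcon
  obtain ⟨S, hS1, hS2⟩ := cover_of_event (N := N) (fun a => ∃ A' ∈ X, pre N A' = a) X
    (fun A hA => ⟨A, hA, rfl⟩) f δ (by
      rw [← card_of_Ex, ← real_event (fun a : Fin N → Bool => ∃ A' ∈ X, pre N A' = a)]
      exact hcon.le)
  exact absurd hS2 (not_le.2 (h S hS1))

theorem prob_lower (M : Alg) (Z : List Bool → Option (List Bool) → Prop) {f : ℕ → ℝ}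
    (h : ¬ Null f {A | ∀ x, Z x (M.out A x)}) : ∃ (δ : ℝ) (s : Polynomial ℕ), 0 < δ ∧ ∀ n : ℕ,
      δ ≤ ranO.real {A | ∀ x, x.length ≤ n → Z x (M.out A x)} *
        2 ^ (f (2 ^ (s.eval n + 1))) := by
  obtain ⟨δ, hδ, hlow⟩ := nonnull_lower h
  obtain ⟨s, hs⟩ := M.out_local
  refine ⟨δ, s, hδ, fun n => (hlow (2 ^ (s.eval n + 1))).trans ?_⟩
  refine mul_le_mul_of_nonneg_right (measureReal_mono ?_) (by positivity)
  rintro A ⟨A', hA', hpre⟩ x hx
  obtain ⟨Q, _, hQ2, hQ3⟩ := hs A x
  have h1 : M.out A' x = M.out A x := by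
    apply hQ3
    intro q hq
    have h2 : q.length ≤ s.eval n := (hQ2 q hq).trans (eval_mono s hx)
    have h3 : idx q < 2 ^ (s.eval n + 1) := by
      have h4 := idx_lt q
      have h5 : 2 ^ (q.length + 1) ≤ 2 ^ (s.eval n + 1) :=
        Nat.pow_le_pow_right (by norm_num) (by omega)
      omega
    have h6 := congrFun hpre ⟨idx q, h3⟩
    simp only [pre, str_idx] at h6
    exact h6
  rw [← h1]
  exact hA' x

end Pool.Agent.Z45.OG
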