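import Pool.Agent.Z45.OG.Defs
import Pool.Agent.Z45.OG.Amp
import Pool.Agent.Z45.OG.LazyPoly
import Pool.Agent.Z45.OG.NonNull

/-!
# Oracles that help and polynomial advice
-/

namespace Pool.Agent.Z45.OG

open Pool.Agent.NPC Pool.Agent.H620R2.Gauge MeasureTheory

/-- the result is right -/
def Right (L : Set (List Bool)) (x : List Bool) (o : Option (List Bool)) : Prop :=
  x ∈ L ↔ o = some [true]

theorem helpers_alg (L : Set (List Bool)) : helpers L ⊆ ⋃ M : Alg, {A | ∀ x, Right L x (M.out A x)} := by
  rintro A ⟨V, ⟨M, hM⟩, hV⟩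
  refine Set.mem_iUnion.2 ⟨M, fun x => ?_⟩
  rw [Right, hM x, hV x, Option.some.injEq]

theorem exists_alg_nonnull {f : ℕ → ℝ} {L : Set (List Bool)} (h : ¬ Null f (helpers L)) :
    ∃ M : Alg, ¬ Null f {A | ∀ x, Right L x (M.out A x)} := by
  by_contra hcon
  push Not at hcon
  exact h ((null_iUnion _ hcon).mono (helpers_alg L))

/-- the vote of the simulations with the given answers -/
def vote (M : Alg) (x : List Bool) (τ : Tab) (rs : List (List Bool)) : Bool :=
  decide (rs.length ≤ 2 * (rs.filter (fun r =>
    decide (lz M x (M.p.eval x.length) [] τ r = some [true]))).length)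

theorem poly_vote (M : Alg) : Poly (fun p : List Bool × Tab × List (List Bool) =>
    vote M p.1 p.2.1 p.2.2) := by
  have h2 : Poly (fun p : List Bool × Tab × List (List Bool) => p.2.2) :=
    Poly.snd (Poly.snd Poly.id)
  have h3 : Poly (fun q : (List Bool × Tab × List (List Bool)) × List Bool =>
      lz M q.1.1 (M.p.eval q.1.1.length) [] q.1.2.1 q.2) :=
    poly_lz M (x := fun q : (List Bool × Tab × List (List Bool)) × List Bool => q.1.1)
      (τ := fun q => q.1.2.1) (r := fun q => q.2) (Poly.fst (Poly.fst Poly.id))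
      (Poly.fst (Poly.snd (Poly.fst Poly.id))) (Poly.snd Poly.id)
  have h4 : Poly (fun p : List Bool × Tab × List (List Bool) => p.2.2.filter (fun r =>
      decide (lz M p.1 (M.p.eval p.1.length) [] p.2.1 r = some [true]))) :=
    Poly.filter (p := fun p r => decide (lz M p.1 (M.p.eval p.1.length) [] p.2.1 r = some [true]))
      h2 (Poly.decide_eq h3 (NPC.Poly.const _))
  exact Poly.decide_le (Poly.length h2) (Poly.mul (NPC.Poly.const 2) (Poly.length h4))

/-- the function that uses the advice -/
def advV (M : Alg) (y : List Bool) : List Bool :=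
  [match unbits (Tab × List (List Bool)) (unpair y).2 with
    | none => false
    | some h => vote M (unpair y).1 h.1 h.2]

theorem polyTime_advV (M : Alg) : PolyTime (advV M) := by
  refine polyTime_of_poly ((Poly.optCases (o := fun y =>
      unbits (Tab × List (List Bool)) (unpair y).2) (g := fun _ => false)
    (h := fun y h => vote M (unpair y).1 h.1 h.2)
    (poly_unbits.comp (Poly.snd poly_unpair)) (NPC.Poly.const _) ?_).congr fun y => ?_)
  · exact (poly_vote M).comp (Poly.pair (Poly.fst (poly_unpair.comp (Poly.fst Poly.id)))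
      (Poly.snd Poly.id))
  · cases unbits (Tab × List (List Bool)) (unpair y).2 <;> rfl

theorem advV_eq (M : Alg) (x : List Bool) (τ : Tab) (rs : List (List Bool)) :
    advV M (pairBits x (bits (τ, rs))) = [vote M x τ rs] := by
  simp only [advV, unpair_pairBits, unbits_bits]

theorem length_filter_ofFn {α : Type} {m : ℕ} (f : Fin m → α) (P : α → Prop) [DecidablePred P] :
    ((List.ofFn f).filter (fun a => decide (P a))).length =
      (Finset.univ.filter (fun i => P (f i))).card := by
  rw [List.ofFn_eq_map, List.filter_map, List.length_map]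
  rfl

/-- There are good answers for all inputs of a length. -/
theorem adleman (M : Alg) (L : Set (List Bool)) (n : ℕ) (τ : Tab)
    (h : ∀ x, x.length = n → 2 / 3 ≤ acc M (Right L x) x (M.p.eval x.length) [] τ) :
    ∃ w : Fin (12 * (n + 1)) → Fin (M.p.eval n) → Bool, ∀ x, x.length = n →
      (x ∈ L ↔ vote M x τ (List.ofFn (fun i => List.ofFn (w i))) = true) := by
  classical
  set t := M.p.eval n with ht
  set k := n + 1 with hk
  set bad : List Bool → (Fin t → Bool) → Prop := fun x r =>
    ¬ Right L x (lz M x (M.p.eval x.length) [] τ (List.ofFn r)) with hbad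
  have hthird : ∀ x, x.length = n → 3 * (Finset.univ.filter (bad x)).card ≤
      Fintype.card (Fin t → Bool) := by
    intro x hx
    have h1 := count_lz M (Right L x) x (M.p.eval x.length) [] τ t (by rw [hx])
    have h2 : (Nat.card {r : Fin t → Bool //
        Right L x (lz M x (M.p.eval x.length) [] τ (List.ofFn r))}) +
        (Finset.univ.filter (bad x)).card = 2 ^ t := by
      rw [Nat.card_eq_fintype_card, Fintype.card_subtype]
      have e := Finset.card_filter_add_card_filter_not (s := Finset.univ) (fun r : Fin t → Bool =>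
        Right L x (lz M x (M.p.eval x.length) [] τ (List.ofFn r)))
      rw [Finset.card_univ] at e
      simpa using e
    have h3 : (2 / 3 : ℝ) * 2 ^ t ≤ Nat.card {r : Fin t → Bool //
        Right L x (lz M x (M.p.eval x.length) [] τ (List.ofFn r))} := by
      rw [h1]
      exact mul_le_mul_of_nonneg_right (h x hx) (by positivity)
    have h4 : ((Nat.card {r : Fin t → Bool //
        Right L x (lz M x (M.p.eval x.length) [] τ (List.ofFn r))} : ℕ) : ℝ) +
        ((Finset.univ.filter (bad x)).card : ℕ) = 2 ^ t := by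
      exact_mod_cast h2
    have h5 : (3 : ℝ) * (Finset.univ.filter (bad x)).card ≤ 2 ^ t := by linarith
    have h6 : Fintype.card (Fin t → Bool) = 2 ^ t := by simp
    rw [h6]
    exact_mod_cast h5
  have hex : ∃ w : Fin (12 * k) → Fin t → Bool, ∀ v : Fin n → Bool,
      (Finset.univ.filter (fun i => bad (List.ofFn v) (w i))).card < 6 * k := by
    by_contra hcon
    push Not at hcon
    have h1 : (Finset.univ : Finset (Fin (12 * k) → Fin t → Bool)) ⊆
        Finset.univ.biUnion (fun v : Fin n → Bool => Finset.univ.filter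
          (fun w : Fin (12 * k) → Fin t → Bool =>
            6 * k ≤ (Finset.univ.filter (fun i => bad (List.ofFn v) (w i))).card)) := by
      intro w _
      obtain ⟨v, hv⟩ := hcon w
      exact Finset.mem_biUnion.2 ⟨v, Finset.mem_univ _, Finset.mem_filter.2
        ⟨Finset.mem_univ _, hv⟩⟩
    have h2 := Finset.card_le_card h1
    have h3 := h2.trans Finset.card_biUnion_le
    have h4 : ∀ v : Fin n → Bool, 2 ^ k * (Finset.univ.filter
          (fun w : Fin (12 * k) → Fin t → Bool =>
            6 * k ≤ (Finset.univ.filter (fun i => bad (List.ofFn v) (w i))).card)).card ≤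
        Fintype.card (Fin t → Bool) ^ (12 * k) := fun v =>
      amp (bad (List.ofFn v)) (hthird _ (by simp)) k
    have h5 : 2 ^ k * ∑ v : Fin n → Bool, (Finset.univ.filter
          (fun w : Fin (12 * k) → Fin t → Bool =>
            6 * k ≤ (Finset.univ.filter (fun i => bad (List.ofFn v) (w i))).card)).card ≤
        2 ^ n * Fintype.card (Fin t → Bool) ^ (12 * k) := by
      rw [Finset.mul_sum]
      refine (Finset.sum_le_sum fun v _ => h4 v).trans ?_
      rw [Finset.sum_const, Finset.card_univ, smul_eq_mul]
      simp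
    have h6 : (Finset.univ : Finset (Fin (12 * k) → Fin t → Bool)).card =
        Fintype.card (Fin t → Bool) ^ (12 * k) := by
      rw [Finset.card_univ, Fintype.card_fun, Fintype.card_fin]
    rw [h6] at h3
    have h7 : 0 < Fintype.card (Fin t → Bool) ^ (12 * k) := pow_pos Fintype.card_pos _
    have h8 := (Nat.mul_le_mul_left (2 ^ k) h3).trans h5
    have h9 := Nat.le_of_mul_le_mul_right h8 h7
    have h10 : 2 ^ n < 2 ^ k := Nat.pow_lt_pow_right (by norm_num) (by omega)
    omega
  obtain ⟨w, hw⟩ := hex
  refine ⟨w, fun x hx => ?_⟩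
  have h1 := hw (fun i : Fin n => x.get (i.cast hx.symm))
  have h2 : List.ofFn (fun i : Fin n => x.get (i.cast hx.symm)) = x := by
    subst hx
    exact List.ofFn_get x
  rw [h2] at h1
  set F : Fin (12 * k) → Prop := fun i =>
    lz M x (M.p.eval x.length) [] τ (List.ofFn (w i)) = some [true] with hF
  have h3 : ((List.ofFn (fun i => List.ofFn (w i))).filter (fun r =>
      decide (lz M x (M.p.eval x.length) [] τ r = some [true]))).length =
      (Finset.univ.filter F).card := by
    have e := length_filter_ofFn (fun i => List.ofFn (w i)) (fun r =>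
      lz M x (M.p.eval x.length) [] τ r = some [true])
    convert e
  rw [vote, h3, List.length_ofFn, decide_eq_true_iff]
  by_cases hxL : x ∈ L
  · simp only [hxL, true_iff]
    have h4 : Finset.univ.filter F = Finset.univ.filter (fun i => ¬ bad x (w i)) := by
      apply Finset.filter_congr
      intro i _
      simp only [hF, hbad, Right, hxL, true_iff, not_not]
    have h5 : (Finset.univ.filter (fun i => bad x (w i))).card +
        (Finset.univ.filter (fun i => ¬ bad x (w i))).card = 12 * k := by
      rw [Finset.card_filter_add_card_filter_not]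
      simp
    rw [h4]
    omega
  · simp only [hxL, false_iff, not_le]
    have h4 : Finset.univ.filter F = Finset.univ.filter (fun i => bad x (w i)) := by
      apply Finset.filter_congr
      intro i _
      simp only [hF, hbad, Right, hxL, false_iff, not_not]
    rw [h4]
    omega

theorem sz_tab_le (τ : Tab) (B : ℕ) (h : Short B τ) : sz τ ≤ τ.length * (4 * B + 6) + 1 := by
  refine sz_le_length_mul τ (4 * B + 5) fun e he => ?_
  obtain ⟨q, b⟩ := e
  rw [sz_pair]
  have h1 := sz_listBool_le q
  have h2 := h _ he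
  have h3 := sz_bool_le b
  simp only at h2
  omega

theorem inPpoly_of_nonnull {L : Set (List Bool)} {c : ℝ}
    (h : ¬ Null (fun N => (Real.logb 2 N) ^ c) (helpers L)) : InPpoly L := by
  obtain ⟨M, hM⟩ := exists_alg_nonnull h
  obtain ⟨δ, s, hδ, hlow⟩ := prob_lower M (Right L) hM
  obtain ⟨b, hb⟩ := M.next_length
  obtain ⟨C, hC⟩ := exists_nat_ge c
  obtain ⟨d, hd⟩ := pow_unbounded_of_one_lt (1 / δ) (show (1 : ℝ) < 2 by norm_num)
  -- the number of steps
  set K : Polynomial ℕ := Polynomial.C 2 * ((s + 1) ^ C + Polynomial.C (d + 1)) with hK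
  have hKe : ∀ n, K.eval n = 2 * ((s.eval n + 1) ^ C + (d + 1)) := by
    intro n
    simp [hK]
  have hlow2 : ∀ n, 1 < ranO.real {A | ∀ x : List Bool, x.length ≤ n → Right L x (M.out A x)} *
      (3 / 2) ^ K.eval n := by
    intro n
    set g := ranO.real {A | ∀ x : List Bool, x.length ≤ n → Right L x (M.out A x)} with hg
    have h1 := hlow n
    rw [← hg] at h1
    set m := (s.eval n + 1) ^ C with hm
    have h2 : (2 : ℝ) ^ ((Real.logb 2 ((2 ^ (s.eval n + 1) : ℕ) : ℝ)) ^ c) ≤ 2 ^ m := by
      rw [← Real.rpow_natCast 2 m]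
      apply Real.rpow_le_rpow_of_exponent_le (by norm_num)
      have e1 : Real.logb 2 ((2 ^ (s.eval n + 1) : ℕ) : ℝ) = ((s.eval n + 1 : ℕ) : ℝ) := by
        rw [Nat.cast_pow, Nat.cast_ofNat, Real.logb_pow, Real.logb_self_eq_one (by norm_num),
          mul_one]
      rw [e1, hm]
      have e2 : (1 : ℝ) ≤ ((s.eval n + 1 : ℕ) : ℝ) := by
        push_cast
        linarith [Nat.cast_nonneg (α := ℝ) (s.eval n)]
      calc (((s.eval n + 1 : ℕ) : ℝ)) ^ c ≤ (((s.eval n + 1 : ℕ) : ℝ)) ^ (C : ℝ) :=
            Real.rpow_le_rpow_of_exponent_le e2 hC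
        _ = (((s.eval n + 1) ^ C : ℕ) : ℝ) := by
            rw [Real.rpow_natCast]; push_cast; ring
    have h3 : δ ≤ g * 2 ^ m :=
      h1.trans (mul_le_mul_of_nonneg_left h2 measureReal_nonneg)
    have h4 : (2 : ℝ) ^ (m + (d + 1)) ≤ (3 / 2) ^ K.eval n := by
      rw [hKe, pow_mul]
      exact pow_le_pow_left₀ (by norm_num) (by norm_num) _
    have h5 : 1 < δ * 2 ^ (d + 1) := by
      have : 1 / δ < 2 ^ (d + 1) := hd.trans (pow_lt_pow_right₀ (by norm_num) (by omega))
      rw [div_lt_iff₀ hδ] at this
      linarith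
    calc (1 : ℝ) < δ * 2 ^ (d + 1) := h5
      _ ≤ g * 2 ^ m * 2 ^ (d + 1) := mul_le_mul_of_nonneg_right h3 (by positivity)
      _ = g * 2 ^ (m + (d + 1)) := by rw [pow_add]; ring
      _ ≤ g * (3 / 2) ^ K.eval n := mul_le_mul_of_nonneg_left h4 measureReal_nonneg
  have hgr : ∀ n, ∃ τ : Tab, Good τ ∧ Short (b.eval n) τ ∧
      τ.length ≤ K.eval n * M.p.eval n ∧
      ∀ x, x.length = n → 2 / 3 ≤ acc M (Right L x) x (M.p.eval x.length) [] τ := by
    intro n
    refine greedy M (Right L) n (b.eval n) (K.eval n) (fun x a hx ha => ?_) (hlow2 n)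
    have := hb x a ha
    rwa [hx] at this
  choose τ _ hs hl hacc using hgr
  choose w hw using fun n => adleman M L n (τ n) (hacc n)
  refine ⟨advV M, fun n => bits (τ n, List.ofFn (fun i => List.ofFn (w n i))),
    K * M.p * (Polynomial.C 4 * b + Polynomial.C 6) + Polynomial.C 12 * (Polynomial.X + 1) *
      (Polynomial.C 4 * M.p + Polynomial.C 2) + Polynomial.C 3, polyTime_advV M, fun n => ?_,
    fun x => ?_⟩
  · rw [bits_length, sz_pair]
    have h1 := sz_tab_le (τ n) (b.eval n) (hs n)
    have h2 : sz (List.ofFn (fun i => List.ofFn (w n i))) ≤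
        (12 * (n + 1)) * (4 * M.p.eval n + 2) + 1 := by
      have := sz_le_length_mul (List.ofFn (fun i => List.ofFn (w n i))) (4 * M.p.eval n + 1)
        (fun r hr => by
          rw [List.mem_ofFn] at hr
          obtain ⟨i, rfl⟩ := hr
          refine (sz_listBool_le _).trans ?_
          rw [List.length_ofFn])
      rw [List.length_ofFn] at this
      exact this
    have h3 : (τ n).length * (4 * b.eval n + 6) ≤
        K.eval n * M.p.eval n * (4 * b.eval n + 6) := Nat.mul_le_mul_right _ (hl n)
    simp only [Polynomial.eval_add, Polynomial.eval_mul, Polynomial.eval_C, Polynomial.eval_X,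
      Polynomial.eval_one]
    omega
  · rw [advV_eq, hw x.length x rfl]
    constructor
    · intro h; rw [h]
    · intro h; simpa using h

end Pool.Agent.Z45.OG
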